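import Pool.Agent.EDU.Line

/-!
# Averages over all directions
-/

set_option autoImplicit false

open MeasureTheory Set Filter Topology

namespace Pool.Agent.EDU

/-- The indicator function of `[-r, r]`. -/
noncomputable def ind (r x : ℝ) : ℝ := if |x| ≤ r then 1 else 0

theorem ind_nonneg (r x : ℝ) : 0 ≤ ind r x := by
  unfold ind
  split_ifs <;> norm_num

theorem ind_le_one (r x : ℝ) : ind r x ≤ 1 := by
  unfold ind
  split_ifs <;> norm_num

theorem ind_neg (r x : ℝ) : ind r (-x) = ind r x := by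
  unfold ind
  rw [abs_neg]

theorem measurable_ind (r : ℝ) : Measurable (ind r) := by
  unfold ind
  exact Measurable.ite (measurableSet_le (by fun_prop) (by fun_prop)) measurable_const
    measurable_const

theorem P_neg (a x : ℝ) : P a (-x) = P a x := by
  unfold P
  rw [neg_sq]

/-- a measurable function with values in `[0,1]` is interval integrable -/
theorem intervalIntegrable_ind {f : ℝ → ℝ} (hf : Measurable f) (r A B : ℝ) :
    IntervalIntegrable (fun t => ind r (f t)) volume A B := by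
  rw [intervalIntegrable_iff]
  refine Measure.integrableOn_of_bounded (M := 1) (measure_Ioc_lt_top.ne) ?_ ?_
  · exact ((measurable_ind r).comp hf).aestronglyMeasurable
  · refine Eventually.of_forall fun t => ?_
    rw [Real.norm_of_nonneg (ind_nonneg _ _)]
    exact ind_le_one _ _

/-- rotation invariance of the average over all directions -/
theorem integral_rot {h : ℝ → ℝ} (hh : ∀ x, h (-x) = h x) (p q : ℝ) :
    ∫ θ in (0 : ℝ)..Real.pi, h (p * Real.cos θ + q * Real.sin θ) =
      ∫ θ in (0 : ℝ)..Real.pi, h (Real.sqrt (p ^ 2 + q ^ 2) * Real.cos θ) := by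
  set d := Real.sqrt (p ^ 2 + q ^ 2) with hd
  obtain ⟨α, hp, hq⟩ : ∃ α : ℝ, p = d * Real.cos α ∧ q = d * Real.sin α := by
    refine ⟨Complex.arg ⟨p, q⟩, ?_, ?_⟩
    · have h1 := Complex.norm_mul_cos_arg ⟨p, q⟩
      have h2 : ‖(⟨p, q⟩ : ℂ)‖ = d := by
        rw [hd, Complex.norm_def, Complex.normSq_mk]
        congr 1
        ring
      rw [h2] at h1
      exact h1.symm
    · have h1 := Complex.norm_mul_sin_arg ⟨p, q⟩
      have h2 : ‖(⟨p, q⟩ : ℂ)‖ = d := by
        rw [hd, Complex.norm_def, Complex.normSq_mk]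
        congr 1
        ring
      rw [h2] at h1
      exact h1.symm
  have e1 : ∀ θ : ℝ, h (p * Real.cos θ + q * Real.sin θ) =
      (fun t => h (d * Real.cos t)) (θ - α) := by
    intro θ
    simp only [Real.cos_sub]
    congr 1
    rw [hp, hq]
    ring
  simp_rw [e1]
  rw [intervalIntegral.integral_comp_sub_right (fun t => h (d * Real.cos t)) α]
  have hper : Function.Periodic (fun t => h (d * Real.cos t)) Real.pi := by
    intro t
    simp only [Real.cos_add_pi, mul_neg, hh]
  have h3 := hper.intervalIntegral_add_eq (0 - α) 0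
  have e2 : 0 - α + Real.pi = Real.pi - α := by ring
  rw [e2, zero_add] at h3
  exact h3

theorem integral_half {h : ℝ → ℝ} (d : ℝ) :
    ∫ θ in (0 : ℝ)..Real.pi, h (d * Real.cos θ) =
      ∫ θ in (-(Real.pi / 2))..(Real.pi / 2), h (d * Real.sin θ) := by
  have h1 := intervalIntegral.integral_comp_sub_left (a := 0) (b := Real.pi)
    (fun t => h (d * Real.sin t)) (Real.pi / 2)
  simp only [Real.sin_pi_div_two_sub] at h1
  rw [h1]
  congr 1 <;> ring

theorem integral_half' {h : ℝ → ℝ} (hh : ∀ x, h (-x) = h x) (d : ℝ) :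
    ∫ θ in (0 : ℝ)..Real.pi, h (d * Real.cos θ) =
      ∫ θ in (-(Real.pi / 2))..(Real.pi / 2), h (d * Real.cos θ) := by
  have hper : Function.Periodic (fun t => h (d * Real.cos t)) Real.pi := by
    intro t
    simp only [Real.cos_add_pi, mul_neg, hh]
  have h3 := hper.intervalIntegral_add_eq (-(Real.pi / 2)) 0
  have e2 : -(Real.pi / 2) + Real.pi = Real.pi / 2 := by ring
  rw [e2, zero_add] at h3
  exact h3.symm

/-- the average of the Cauchy kernel over all directions -/
theorem integral_P_cos {b : ℝ} (hb : 0 < b) (d : ℝ) :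
    ∫ θ in (0 : ℝ)..Real.pi, P b (d * Real.cos θ) = Real.pi / Real.sqrt (b ^ 2 + d ^ 2) := by
  rw [integral_half' (P_neg b)]
  set s := Real.sqrt (b ^ 2 + d ^ 2) with hs
  have hs0 : 0 < s := Real.sqrt_pos.2 (by positivity)
  have hs2 : s ^ 2 = b ^ 2 + d ^ 2 := Real.sq_sqrt (by positivity)
  have hpi := Real.pi_pos
  have hd : ∀ θ ∈ Ioo (-(Real.pi / 2)) (Real.pi / 2),
      HasDerivAt (fun θ => 1 / s * Real.arctan (b / s * Real.tan θ)) (P b (d * Real.cos θ)) θ := by
    intro θ hθ
    have hc : 0 < Real.cos θ := Real.cos_pos_of_mem_Ioo hθ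
    have h1 := (Real.hasDerivAt_tan hc.ne').const_mul (b / s)
    have h2 := h1.arctan.const_mul (1 / s)
    refine h2.congr_deriv ?_
    rw [Real.tan_eq_sin_div_cos]
    unfold P
    have hc2 : Real.sin θ ^ 2 = 1 - Real.cos θ ^ 2 := by
      have := Real.sin_sq_add_cos_sq θ
      linarith
    have h3 : s ^ 2 * Real.cos θ ^ 2 + b ^ 2 * Real.sin θ ^ 2 = b ^ 2 + d ^ 2 * Real.cos θ ^ 2 := by
      rw [hs2, hc2]
      ring
    have h4 : 0 < b ^ 2 + d ^ 2 * Real.cos θ ^ 2 := by positivity
    have h5 : 1 + (b / s * (Real.sin θ / Real.cos θ)) ^ 2 =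
        (b ^ 2 + d ^ 2 * Real.cos θ ^ 2) / (s ^ 2 * Real.cos θ ^ 2) := by
      rw [← h3]
      field_simp
    rw [h5]
    have h6 : b ^ 2 + (d * Real.cos θ) ^ 2 = b ^ 2 + d ^ 2 * Real.cos θ ^ 2 := by ring
    rw [h6]
    field_simp
  have hbs : 0 < b / s := div_pos hb hs0
  have hA : Tendsto (fun θ => 1 / s * Real.arctan (b / s * Real.tan θ))
      (𝓝[>] (-(Real.pi / 2))) (𝓝 (1 / s * (-(Real.pi / 2)))) := by
    refine Tendsto.const_mul _ ?_
    have h1 : Tendsto (fun θ => b / s * Real.tan θ) (𝓝[>] (-(Real.pi / 2))) atBot :=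
      Real.tendsto_tan_neg_pi_div_two.const_mul_atBot hbs
    exact (tendsto_nhds_of_tendsto_nhdsWithin Real.tendsto_arctan_atBot).comp h1
  have hB : Tendsto (fun θ => 1 / s * Real.arctan (b / s * Real.tan θ))
      (𝓝[<] (Real.pi / 2)) (𝓝 (1 / s * (Real.pi / 2))) := by
    refine Tendsto.const_mul _ ?_
    have h1 : Tendsto (fun θ => b / s * Real.tan θ) (𝓝[<] (Real.pi / 2)) atTop :=
      Real.tendsto_tan_pi_div_two.const_mul_atTop hbs
    exact (tendsto_nhds_of_tendsto_nhdsWithin Real.tendsto_arctan_atTop).comp h1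
  have h := intervalIntegral.integral_eq_sub_of_hasDerivAt_of_tendsto (by linarith) hd
    (((continuous_P hb).comp (by fun_prop)).intervalIntegrable _ _) hA hB
  rw [h]
  field_simp
  ring

end Pool.Agent.EDU
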