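import Mathlib

/-!
# The Cauchy kernel on the line

`P a x = a / (a^2 + x^2)`; semigroup property and a lower bound for the energy of `n` points of
`[-1,1]` with respect to this kernel.
-/

set_option autoImplicit false

open MeasureTheory Set Filter Topology

namespace Pool.Agent.EDU

/-- The Cauchy (Poisson) kernel. -/
noncomputable def P (a x : ℝ) : ℝ := a / (a ^ 2 + x ^ 2)

theorem P_nonneg {a : ℝ} (ha : 0 < a) (x : ℝ) : 0 ≤ P a x := by
  unfold P
  positivity

theorem P_le {a : ℝ} (ha : 0 < a) (x : ℝ) : P a x ≤ 1 / a := by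
  unfold P
  rw [div_le_div_iff₀ (by positivity) ha]
  nlinarith [sq_nonneg x]

theorem continuous_P {a : ℝ} (ha : 0 < a) : Continuous (P a) := by
  unfold P
  refine Continuous.div (by fun_prop) (by fun_prop) fun x => ?_
  positivity

theorem hasDerivAt_arctan_P {a : ℝ} (ha : 0 < a) (x t : ℝ) :
    HasDerivAt (fun t => Real.arctan ((t - x) / a)) (P a (t - x)) t := by
  have h1 : HasDerivAt (fun t => (t - x) / a) (1 / a) t :=
    ((hasDerivAt_id t).sub_const x).div_const a
  have h2 := h1.arctan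
  have e : P a (t - x) = 1 / (1 + ((t - x) / a) ^ 2) * (1 / a) := by
    unfold P
    field_simp
  rw [e]
  exact h2

theorem hasDerivAt_log_P {a : ℝ} (ha : 0 < a) (x t : ℝ) :
    HasDerivAt (fun t => Real.log (a ^ 2 + (t - x) ^ 2)) (2 * ((t - x) / (a ^ 2 + (t - x) ^ 2))) t := by
  have h0 : a ^ 2 + (t - x) ^ 2 ≠ 0 := by positivity
  have h1 : HasDerivAt (fun t => a ^ 2 + (t - x) ^ 2) (2 * (t - x)) t := by
    have := (((hasDerivAt_id t).sub_const x).pow 2).const_add (a ^ 2)
    simpa using this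
  have h2 := h1.log h0
  have e : 2 * ((t - x) / (a ^ 2 + (t - x) ^ 2)) = 2 * (t - x) / (a ^ 2 + (t - x) ^ 2) := by ring
  rw [e]
  exact h2

theorem integrable_P {a : ℝ} (ha : 0 < a) (x : ℝ) : Integrable (fun t => P a (t - x)) := by
  have h1 : Integrable (fun t : ℝ => (1 + (t / a) ^ 2)⁻¹) :=
    integrable_inv_one_add_sq.comp_div ha.ne'
  have h2 := (h1.const_mul (1 / a)).comp_sub_right x
  refine h2.congr (Eventually.of_forall fun t => ?_)
  simp only [P]
  field_simp

theorem integral_P {a : ℝ} (ha : 0 < a) (x A B : ℝ) :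
    ∫ t in A..B, P a (t - x) = Real.arctan ((B - x) / a) - Real.arctan ((A - x) / a) := by
  refine intervalIntegral.integral_eq_sub_of_hasDerivAt (fun t _ => hasDerivAt_arctan_P ha x t) ?_
  exact ((continuous_P ha).comp (continuous_id.sub continuous_const)).intervalIntegrable _ _

theorem arctan_ge {z : ℝ} (hz : 0 < z) : Real.pi / 2 - 1 / z ≤ Real.arctan z := by
  have h1 := Real.arctan_inv_of_pos hz
  have h2 : Real.arctan z⁻¹ ≤ z⁻¹ := by
    have h3 : 0 < Real.arctan z⁻¹ := Real.arctan_pos.2 (inv_pos.2 hz)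
    have h4 := Real.lt_tan h3 (Real.arctan_lt_pi_div_two _)
    rw [Real.tan_arctan] at h4
    exact h4.le
  rw [one_div]
  linarith

theorem tendsto_log {a : ℝ} (x : ℝ) {l : Filter ℝ}
    (h1 : Tendsto (fun t : ℝ => t⁻¹) l (𝓝 0)) (h2 : ∀ᶠ t in l, t ≠ 0) (ha : 0 < a) :
    Tendsto (fun t => Real.log (a ^ 2 + (t - x) ^ 2) - Real.log (t ^ 2)) l (𝓝 0) := by
  have h3 : Tendsto (fun t : ℝ => a ^ 2 * (t⁻¹) ^ 2 + (1 - x * t⁻¹) ^ 2) l
      (𝓝 (a ^ 2 * 0 ^ 2 + (1 - x * 0) ^ 2)) :=
    ((h1.pow 2).const_mul _).add (((h1.const_mul x).const_sub 1).pow 2)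
  have e : a ^ 2 * (0 : ℝ) ^ 2 + (1 - x * 0) ^ 2 = 1 := by ring
  rw [e] at h3
  have h4 := h3.log (by norm_num)
  rw [Real.log_one] at h4
  refine h4.congr' ?_
  filter_upwards [h2] with t ht
  have h5 : a ^ 2 + (t - x) ^ 2 ≠ 0 := by positivity
  rw [← Real.log_div h5 (by positivity)]
  congr 1
  field_simp

theorem tendsto_log_sub {a : ℝ} (x y : ℝ) {l : Filter ℝ}
    (h1 : Tendsto (fun t : ℝ => t⁻¹) l (𝓝 0)) (h2 : ∀ᶠ t in l, t ≠ 0) (ha : 0 < a) :
    Tendsto (fun t => Real.log (a ^ 2 + (t - x) ^ 2) - Real.log (a ^ 2 + (t - y) ^ 2)) l (𝓝 0) := by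
  have h3 := (tendsto_log x h1 h2 ha).sub (tendsto_log y h1 h2 ha)
  rw [sub_zero] at h3
  refine h3.congr fun t => ?_
  ring

theorem tendsto_arctan_top {a : ℝ} (ha : 0 < a) (x : ℝ) :
    Tendsto (fun t => Real.arctan ((t - x) / a)) atTop (𝓝 (Real.pi / 2)) := by
  have h1 : Tendsto (fun t : ℝ => (t - x) / a) atTop atTop :=
    (tendsto_atTop_add_const_right atTop (-x) tendsto_id).atTop_div_const ha
  exact (tendsto_nhds_of_tendsto_nhdsWithin Real.tendsto_arctan_atTop).comp h1

theorem tendsto_arctan_bot {a : ℝ} (ha : 0 < a) (x : ℝ) :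
    Tendsto (fun t => Real.arctan ((t - x) / a)) atBot (𝓝 (-(Real.pi / 2))) := by
  have h1 : Tendsto (fun t : ℝ => (t - x) / a) atBot atBot :=
    (tendsto_atBot_add_const_right atBot (-x) tendsto_id).atBot_div_const ha
  exact (tendsto_nhds_of_tendsto_nhdsWithin Real.tendsto_arctan_atBot).comp h1

theorem integrable_PP {a : ℝ} (ha : 0 < a) (x y : ℝ) :
    Integrable (fun t => P a (t - x) * P a (t - y)) := by
  refine ((integrable_P ha y).const_mul (1 / a)).mono' ?_ (Eventually.of_forall fun t => ?_)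
  · exact (((continuous_P ha).comp (continuous_id.sub continuous_const)).mul
      ((continuous_P ha).comp (continuous_id.sub continuous_const))).aestronglyMeasurable
  · rw [Real.norm_of_nonneg (mul_nonneg (P_nonneg ha _) (P_nonneg ha _))]
    exact mul_le_mul_of_nonneg_right (P_le ha _) (P_nonneg ha _)

/-- the semigroup property of the Cauchy kernel -/
theorem integral_PP {a : ℝ} (ha : 0 < a) (x y : ℝ) :
    ∫ t, P a (t - x) * P a (t - y) = Real.pi * P (2 * a) (x - y) := by
  by_cases hxy : x = y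
  · subst hxy
    have hlim0 : ∀ {l : Filter ℝ}, Tendsto (fun t : ℝ => t⁻¹) l (𝓝 0) → (∀ᶠ t in l, t ≠ 0) →
        Tendsto (fun t => (t - x) / (a ^ 2 + (t - x) ^ 2)) l (𝓝 0) := by
      intro l h1 h2
      have h3 : Tendsto (fun t : ℝ => t⁻¹ * (1 - x * t⁻¹) / (a ^ 2 * (t⁻¹) ^ 2 + (1 - x * t⁻¹) ^ 2))
          l (𝓝 (0 * (1 - x * 0) / (a ^ 2 * 0 ^ 2 + (1 - x * 0) ^ 2))) := by
        refine (h1.mul ((h1.const_mul x).const_sub 1)).div
          (((h1.pow 2).const_mul _).add (((h1.const_mul x).const_sub 1).pow 2)) ?_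
        norm_num
      rw [zero_mul, zero_div] at h3
      refine h3.congr' ?_
      filter_upwards [h2] with t ht
      have h5 : a ^ 2 + (t - x) ^ 2 ≠ 0 := by positivity
      have h6 : a ^ 2 * (t⁻¹) ^ 2 + (1 - x * t⁻¹) ^ 2 = (a ^ 2 + (t - x) ^ 2) / t ^ 2 := by
        field_simp
      rw [h6]
      field_simp
    have hd : ∀ t : ℝ, HasDerivAt (fun t => 1 / 2 * ((t - x) / (a ^ 2 + (t - x) ^ 2)) +
        1 / 2 * (1 / a) * Real.arctan ((t - x) / a)) (P a (t - x) * P a (t - x)) t := by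
      intro t
      have h0 : a ^ 2 + (t - x) ^ 2 ≠ 0 := by positivity
      have h1 : HasDerivAt (fun t : ℝ => t - x) 1 t := (hasDerivAt_id t).sub_const x
      have h2 : HasDerivAt (fun t => a ^ 2 + (t - x) ^ 2) (2 * (t - x)) t := by
        have := (((hasDerivAt_id t).sub_const x).pow 2).const_add (a ^ 2)
        simpa using this
      have h3 := ((h1.div h2 h0).const_mul (1 / 2)).add
        ((hasDerivAt_arctan_P ha x t).const_mul (1 / 2 * (1 / a)))
      refine h3.congr_deriv ?_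
      unfold P
      field_simp
      ring
    have h := integral_of_hasDerivAt_of_tendsto hd (integrable_PP ha x x)
      (m := 1 / 2 * 0 + 1 / 2 * (1 / a) * (-(Real.pi / 2)))
      (n := 1 / 2 * 0 + 1 / 2 * (1 / a) * (Real.pi / 2))
      (((hlim0 tendsto_inv_atBot_zero (eventually_ne_atBot 0)).const_mul _).add
        ((tendsto_arctan_bot ha x).const_mul _))
      (((hlim0 tendsto_inv_atTop_zero (eventually_ne_atTop 0)).const_mul _).add
        ((tendsto_arctan_top ha x).const_mul _))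
    rw [h]
    unfold P
    field_simp
    ring
  · have hc : y - x ≠ 0 := sub_ne_zero.2 (Ne.symm hxy)
    set D : ℝ := (y - x) ^ 2 + 4 * a ^ 2 with hD
    have hD0 : 0 < D := by positivity
    have hd : ∀ t : ℝ, HasDerivAt (fun t => a ^ 2 / ((y - x) * D) *
        (Real.log (a ^ 2 + (t - x) ^ 2) - Real.log (a ^ 2 + (t - y) ^ 2)) +
        a / D * (Real.arctan ((t - x) / a) + Real.arctan ((t - y) / a)))
        (P a (t - x) * P a (t - y)) t := by
      intro t
      have h0 : a ^ 2 + (t - x) ^ 2 ≠ 0 := by positivity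
      have h0' : a ^ 2 + (t - y) ^ 2 ≠ 0 := by positivity
      have h3 := (((hasDerivAt_log_P ha x t).sub (hasDerivAt_log_P ha y t)).const_mul
        (a ^ 2 / ((y - x) * D))).add
        (((hasDerivAt_arctan_P ha x t).add (hasDerivAt_arctan_P ha y t)).const_mul (a / D))
      refine h3.congr_deriv ?_
      unfold P
      rw [hD]
      have hD1 : (y - x) ^ 2 + 4 * a ^ 2 ≠ 0 := by positivity
      field_simp
      ring
    have h := integral_of_hasDerivAt_of_tendsto hd (integrable_PP ha x y)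
      (m := a ^ 2 / ((y - x) * D) * 0 + a / D * (-(Real.pi / 2) + -(Real.pi / 2)))
      (n := a ^ 2 / ((y - x) * D) * 0 + a / D * (Real.pi / 2 + Real.pi / 2))
      (((tendsto_log_sub x y tendsto_inv_atBot_zero (eventually_ne_atBot 0) ha).const_mul _).add
        (((tendsto_arctan_bot ha x).add (tendsto_arctan_bot ha y)).const_mul _))
      (((tendsto_log_sub x y tendsto_inv_atTop_zero (eventually_ne_atTop 0) ha).const_mul _).add
        (((tendsto_arctan_top ha x).add (tendsto_arctan_top ha y)).const_mul _))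
    rw [h]
    unfold P
    have e : (2 * a) ^ 2 + (x - y) ^ 2 = D := by rw [hD]; ring
    rw [e]
    field_simp
    ring

end Pool.Agent.EDU
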