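import Mathlib

/-!
# The one-dimensional inequality

`K = k - 1`, `c = 1/(2K+1)`. Weight `wt K s = min 2 (2+2c-2s)` for `s ≤ 1` and
`-K max 0 (1+2c-s)` for `s > 1`. If `y_0 ≤ ... ≤ y_(n-1)` and `y_(i+k) - y_i > 1` then
`∑_{i<j} wt K (y_j - y_i) ≤ K n`.
-/

set_option autoImplicit false

open Finset

namespace Pool.Agent.EDU

/-- the weight -/
noncomputable def wt (K s : ℝ) : ℝ :=
  if s ≤ 1 then min 2 (2 + 2 / (2 * K + 1) - 2 * s) else -(K * max 0 (1 + 2 / (2 * K + 1) - s))

/-- the negative part of the weight divided by `K` -/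
noncomputable def vt (K s : ℝ) : ℝ := max 0 (1 + 2 / (2 * K + 1) - s)

theorem vt_nonneg (K s : ℝ) : 0 ≤ vt K s := le_max_left _ _

theorem wt_le_two {K : ℝ} (hK : 0 ≤ K) (s : ℝ) : wt K s ≤ 2 := by
  unfold wt
  split_ifs with h
  · exact min_le_left _ _
  · have : 0 ≤ K * max 0 (1 + 2 / (2 * K + 1) - s) := mul_nonneg hK (le_max_left _ _)
    linarith

theorem wt_of_gt {K s : ℝ} (hs : 1 < s) : wt K s = -(K * vt K s) := by
  unfold wt vt
  rw [if_neg (not_le.2 hs)]

theorem wt_nonpos {K s : ℝ} (hK : 0 ≤ K) (hs : 1 < s) : wt K s ≤ 0 := by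
  rw [wt_of_gt hs]
  have := mul_nonneg hK (vt_nonneg K s)
  linarith

/-- the pointwise inequality -/
theorem pointwise {K a b : ℝ} (hK : 0 ≤ K) : (wt K a + wt K b) / 2 - vt K (a + b) ≤ 1 := by
  have hv := vt_nonneg K (a + b)
  by_cases ha : a ≤ 1
  · by_cases hb : b ≤ 1
    · have h1 : wt K a ≤ 2 + 2 / (2 * K + 1) - 2 * a := by
        unfold wt
        rw [if_pos ha]
        exact min_le_right _ _
      have h2 : wt K b ≤ 2 + 2 / (2 * K + 1) - 2 * b := by
        unfold wt
        rw [if_pos hb]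
        exact min_le_right _ _
      have h3 : 1 + 2 / (2 * K + 1) - (a + b) ≤ vt K (a + b) := le_max_right _ _
      linarith
    · have h1 := wt_le_two hK a
      have h2 := wt_nonpos hK (not_le.1 hb)
      linarith
  · have h1 := wt_le_two hK b
    have h2 := wt_nonpos hK (not_le.1 ha)
    linarith

/-- shift of a sum -/
theorem sum_shift (n m : ℕ) (F : ℕ → ℝ) :
    ∑ i ∈ range n, (if m ≤ i then F (i - m) else 0) =
      ∑ i ∈ range n, (if i + m < n then F i else 0) := by
  rw [← sum_filter, ← sum_filter]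
  refine sum_nbij' (fun i => i - m) (fun i => i + m) ?_ ?_ ?_ ?_ ?_
  · intro i hi
    simp only [mem_filter, mem_range] at hi ⊢
    omega
  · intro i hi
    simp only [mem_filter, mem_range] at hi ⊢
    omega
  · intro i hi
    simp only [mem_filter, mem_range] at hi
    omega
  · intro i hi
    simp only [Nat.add_sub_cancel]
  · intro i _
    rfl

/-- the sum over the pairs `(i, i+m)` -/
noncomputable def PP (n : ℕ) (y : ℕ → ℝ) (f : ℝ → ℝ) (m : ℕ) : ℝ :=
  ∑ i ∈ range n, (if i + m < n then f (y (i + m) - y i) else 0)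

theorem left_sum (n m : ℕ) (y : ℕ → ℝ) (f : ℝ → ℝ) :
    ∑ i ∈ range n, (if m ≤ i then f (y i - y (i - m)) else 0) = PP n y f m := by
  unfold PP
  rw [← sum_shift n m (fun i => f (y (i + m) - y i))]
  refine sum_congr rfl fun i _ => ?_
  split_ifs with h
  · rw [Nat.sub_add_cancel h]
  · rfl

theorem mid_sum (n m m' : ℕ) (y : ℕ → ℝ) (f : ℝ → ℝ) :
    ∑ i ∈ range n, (if m' ≤ i ∧ i + m < n then f (y (i + m) - y (i - m')) else 0) =
      PP n y f (m' + m) := by
  have h := sum_shift n m' (fun i => if i + (m' + m) < n then f (y (i + (m' + m)) - y i) else 0)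
  have e1 : ∑ i ∈ range n, (if m' ≤ i ∧ i + m < n then f (y (i + m) - y (i - m')) else 0) =
      ∑ i ∈ range n, (if m' ≤ i then (if i - m' + (m' + m) < n then
        f (y (i - m' + (m' + m)) - y (i - m')) else 0) else 0) := by
    refine sum_congr rfl fun i _ => ?_
    by_cases h1 : m' ≤ i
    · have e : i - m' + (m' + m) = i + m := by omega
      rw [e]
      simp [h1]
    · simp [h1]
  rw [e1, h]
  unfold PP
  refine sum_congr rfl fun i _ => ?_
  by_cases h1 : i + (m' + m) < n
  · have h2 : i + m' < n := by omega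
    simp [h1, h2]
  · simp [h1]

/-- the inequality for the neighbours of order less than `k` and equal to `k` -/
theorem core {n k : ℕ} (hk : 1 ≤ k) (y : ℕ → ℝ) :
    ∑ m ∈ Icc 1 (k - 1), PP n y (wt ((k : ℝ) - 1)) m -
      ((k : ℝ) - 1) * PP n y (vt ((k : ℝ) - 1)) k ≤ ((k : ℝ) - 1) * n := by
  set K : ℝ := (k : ℝ) - 1 with hK
  have hk1 : (1 : ℝ) ≤ k := by exact_mod_cast hk
  have hK0 : 0 ≤ K := by linarith
  have hcard : ((Icc 1 (k - 1)).card : ℝ) = K := by
    rw [Nat.card_Icc, hK]
    have : k - 1 + 1 - 1 = k - 1 := by omega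
    rw [this, Nat.cast_sub hk, Nat.cast_one]
  have h1 : ∀ m ∈ Icc 1 (k - 1), ∀ i ∈ range n,
      1 / 2 * (if i + m < n then wt K (y (i + m) - y i) else 0) +
      1 / 2 * (if k - m ≤ i then wt K (y i - y (i - (k - m))) else 0) -
      (if k - m ≤ i ∧ i + m < n then vt K (y (i + m) - y (i - (k - m))) else 0) ≤ 1 := by
    intro m _ i _
    by_cases h2 : i + m < n
    · by_cases h3 : k - m ≤ i
      · rw [if_pos h2, if_pos h3, if_pos ⟨h3, h2⟩]
        have := pointwise (K := K) (a := y (i + m) - y i) (b := y i - y (i - (k - m))) hK0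
        have e : y (i + m) - y i + (y i - y (i - (k - m))) = y (i + m) - y (i - (k - m)) := by ring
        rw [e] at this
        linarith
      · rw [if_pos h2, if_neg h3, if_neg (fun h => h3 h.1)]
        have := wt_le_two hK0 (y (i + m) - y i)
        linarith
    · by_cases h3 : k - m ≤ i
      · rw [if_neg h2, if_pos h3, if_neg (fun h => h2 h.2)]
        have := wt_le_two hK0 (y i - y (i - (k - m)))
        linarith
      · rw [if_neg h2, if_neg h3, if_neg (fun h => h2 h.2)]
        norm_num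
  have h2 : ∑ m ∈ Icc 1 (k - 1), ∑ i ∈ range n,
      (1 / 2 * (if i + m < n then wt K (y (i + m) - y i) else 0) +
      1 / 2 * (if k - m ≤ i then wt K (y i - y (i - (k - m))) else 0) -
      (if k - m ≤ i ∧ i + m < n then vt K (y (i + m) - y (i - (k - m))) else 0)) ≤
      ∑ m ∈ Icc 1 (k - 1), ∑ i ∈ range n, (1 : ℝ) :=
    sum_le_sum fun m hm => sum_le_sum fun i hi => h1 m hm i hi
  have h3 : ∑ m ∈ Icc 1 (k - 1), ∑ i ∈ range n, (1 : ℝ) = K * n := by
    rw [sum_const, sum_const, card_range, nsmul_eq_mul, nsmul_eq_mul, mul_one, hcard]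
  have h4 : ∀ m ∈ Icc 1 (k - 1), ∑ i ∈ range n,
      (1 / 2 * (if i + m < n then wt K (y (i + m) - y i) else 0) +
      1 / 2 * (if k - m ≤ i then wt K (y i - y (i - (k - m))) else 0) -
      (if k - m ≤ i ∧ i + m < n then vt K (y (i + m) - y (i - (k - m))) else 0)) =
      1 / 2 * PP n y (wt K) m + 1 / 2 * PP n y (wt K) (k - m) - PP n y (vt K) k := by
    intro m hm
    rw [mem_Icc] at hm
    rw [sum_sub_distrib, sum_add_distrib, ← mul_sum, ← mul_sum, left_sum, mid_sum]
    have e : k - m + m = k := by omega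
    rw [e]
    rfl
  rw [sum_congr rfl h4, h3, sum_sub_distrib, sum_add_distrib, ← mul_sum, ← mul_sum, sum_const,
    nsmul_eq_mul, hcard] at h2
  have h5 : ∑ m ∈ Icc 1 (k - 1), PP n y (wt K) (k - m) = ∑ m ∈ Icc 1 (k - 1), PP n y (wt K) m := by
    refine sum_nbij' (fun m => k - m) (fun m => k - m) ?_ ?_ ?_ ?_ ?_
    · intro m hm
      rw [mem_Icc] at hm ⊢
      omega
    · intro m hm
      rw [mem_Icc] at hm ⊢
      omega
    · intro m hm
      rw [mem_Icc] at hm
      omega
    · intro m hm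
      rw [mem_Icc] at hm
      omega
    · intro m _
      rfl
  rw [h5] at h2
  linarith

/-- the sum over all pairs `i < j` -/
theorem sorted_ineq {n k : ℕ} (hk : 1 ≤ k) (y : ℕ → ℝ)
    (hmono : ∀ i j, i ≤ j → j < n → y i ≤ y j)
    (hgap : ∀ i, i + k < n → 1 < y (i + k) - y i) :
    ∑ i ∈ range n, ∑ j ∈ range n, (if i < j then wt ((k : ℝ) - 1) (y j - y i) else 0) ≤
      ((k : ℝ) - 1) * n := by
  have hk1 : (1 : ℝ) ≤ k := by exact_mod_cast hk
  have hcore := core (n := n) hk y
  set K : ℝ := (k : ℝ) - 1 with hK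
  have hK0 : 0 ≤ K := by linarith
  have h1 : ∀ i ∈ range n, ∑ j ∈ range n, (if i < j then wt K (y j - y i) else 0) ≤
      ∑ m ∈ Icc 1 k, (if i + m < n then wt K (y (i + m) - y i) else 0) := by
    intro i _
    have h2 : ∑ m ∈ Icc 1 k, (if i + m < n then wt K (y (i + m) - y i) else 0) =
        ∑ j ∈ range n, (if i < j ∧ j ≤ i + k then wt K (y j - y i) else 0) := by
      rw [← sum_filter, ← sum_filter]
      refine sum_nbij' (fun m => i + m) (fun j => j - i) ?_ ?_ ?_ ?_ ?_
      · intro m hm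
        simp only [mem_filter, mem_Icc, mem_range] at hm ⊢
        omega
      · intro j hj
        simp only [mem_filter, mem_Icc, mem_range] at hj ⊢
        omega
      · intro m _
        simp only [Nat.add_sub_cancel_left]
      · intro j hj
        simp only [mem_filter, mem_range] at hj
        omega
      · intro m _
        rfl
    rw [h2]
    refine sum_le_sum fun j hj => ?_
    rw [mem_range] at hj
    by_cases h3 : i < j
    · by_cases h4 : j ≤ i + k
      · rw [if_pos h3, if_pos ⟨h3, h4⟩]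
      · rw [if_pos h3, if_neg (fun h => h4 h.2)]
        have h5 := hgap i (by omega)
        have h6 := hmono (i + k) j (by omega) hj
        exact wt_nonpos hK0 (by linarith)
    · rw [if_neg h3, if_neg (fun h => h3 h.1)]
  have h2 : ∑ i ∈ range n, ∑ m ∈ Icc 1 k, (if i + m < n then wt K (y (i + m) - y i) else 0) =
      ∑ m ∈ Icc 1 (k - 1), PP n y (wt K) m + PP n y (wt K) k := by
    rw [sum_comm]
    have e : Icc 1 k = insert k (Icc 1 (k - 1)) := by
      ext m
      simp only [mem_insert, mem_Icc]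
      omega
    rw [e, sum_insert (by simp only [mem_Icc]; omega), add_comm]
    rfl
  have h3 : PP n y (wt K) k = -(K * PP n y (vt K) k) := by
    unfold PP
    rw [mul_sum, ← sum_neg_distrib]
    refine sum_congr rfl fun i _ => ?_
    by_cases h4 : i + k < n
    · rw [if_pos h4, if_pos h4, wt_of_gt (hgap i h4)]
    · rw [if_neg h4, if_neg h4]
      ring
  calc _ ≤ ∑ i ∈ range n, ∑ m ∈ Icc 1 k, (if i + m < n then wt K (y (i + m) - y i) else 0) :=
        sum_le_sum h1
    _ = ∑ m ∈ Icc 1 (k - 1), PP n y (wt K) m + PP n y (wt K) k := h2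
    _ ≤ K * n := by rw [h3]; linarith

end Pool.Agent.EDU
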