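import Pool.Agent.EDU.Angle
import Pool.Agent.EDW.Defs

/-!
# Disks, lines and projections
-/

set_option autoImplicit false

open MeasureTheory Set Filter Topology

namespace Pool.Agent.EDU

open Pool.Agent.EDW (Plane IsLine)

/-- the projection to the direction `θ` -/
noncomputable def pr (v : Plane) (θ : ℝ) : ℝ := v 0 * Real.cos θ + v 1 * Real.sin θ

theorem pr_sub (v w : Plane) (θ : ℝ) : pr v θ - pr w θ =
    (v 0 - w 0) * Real.cos θ + (v 1 - w 1) * Real.sin θ := by
  unfold pr
  ring

theorem plane_normsq (z : Plane) : ‖z‖ ^ 2 = z 0 ^ 2 + z 1 ^ 2 := by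
  rw [EuclideanSpace.norm_sq_eq]
  simp [Fin.sum_univ_two]

theorem abs_pr_le (v : Plane) (θ : ℝ) : |pr v θ| ≤ ‖v‖ := by
  apply abs_le_of_sq_le_sq _ (norm_nonneg v)
  rw [plane_normsq]
  unfold pr
  nlinarith [sq_nonneg (v 0 * Real.sin θ - v 1 * Real.cos θ), Real.sin_sq_add_cos_sq θ]

/-- the line `{x : pr x θ = t}` -/
noncomputable def lin (θ t : ℝ) : Set Plane :=
  {x | ∃ s : ℝ, x = (WithLp.toLp 2 ![t * Real.cos θ, t * Real.sin θ] : Plane) +
    s • (WithLp.toLp 2 ![-Real.sin θ, Real.cos θ] : Plane)}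

theorem isLine_lin (θ t : ℝ) : IsLine (lin θ t) := by
  refine ⟨_, _, ?_, rfl⟩
  intro h
  have h0 := congrArg (fun z : Plane => z 0) h
  have h1 := congrArg (fun z : Plane => z 1) h
  simp at h0 h1
  have := Real.sin_sq_add_cos_sq θ
  rw [h0, h1] at this
  norm_num at this

theorem meet {c : Plane} {r θ t : ℝ} (h : |pr c θ - t| ≤ r) :
    (Metric.closedBall c r ∩ lin θ t).Nonempty := by
  have hsc := Real.sin_sq_add_cos_sq θ
  refine ⟨c + (t - pr c θ) • (WithLp.toLp 2 ![Real.cos θ, Real.sin θ] : Plane), ?_, ?_⟩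
  · rw [Metric.mem_closedBall, dist_eq_norm, add_sub_cancel_left, norm_smul]
    have h1 : ‖(WithLp.toLp 2 ![Real.cos θ, Real.sin θ] : Plane)‖ = 1 := by
      have h2 := plane_normsq (WithLp.toLp 2 ![Real.cos θ, Real.sin θ] : Plane)
      simp only [Matrix.cons_val_zero, Matrix.cons_val_one] at h2
      have h3 : ‖(WithLp.toLp 2 ![Real.cos θ, Real.sin θ] : Plane)‖ ^ 2 = 1 := by
        rw [h2]
        linarith
      have h4 := norm_nonneg (WithLp.toLp 2 ![Real.cos θ, Real.sin θ] : Plane)
      nlinarith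
    rw [h1, mul_one, Real.norm_eq_abs, abs_sub_comm]
    exact h
  · refine ⟨-(c 0) * Real.sin θ + c 1 * Real.cos θ, ?_⟩
    ext i
    fin_cases i
    · simp [pr]
      linear_combination (-(c 0)) * hsc
    · simp [pr]
      linear_combination (-(c 1)) * hsc

theorem count {n k : ℕ} {r : ℝ} {c : Fin n → Plane}
    (hl : ∀ l, IsLine l → {i | (Metric.closedBall (c i) r ∩ l).Nonempty}.ncard ≤ k) (θ t : ℝ) :
    ∑ j, ind r (pr (c j) θ - t) ≤ k := by
  classical
  have h1 : ∑ j, ind r (pr (c j) θ - t) =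
      ((Finset.univ.filter fun j => |pr (c j) θ - t| ≤ r).card : ℝ) := by
    unfold ind
    rw [Finset.sum_ite, Finset.sum_const_zero, add_zero, Finset.sum_const, nsmul_eq_mul, mul_one]
  rw [h1, ← Set.ncard_coe_finset]
  have h2 := hl _ (isLine_lin θ t)
  refine Nat.cast_le.2 (le_trans (Set.ncard_le_ncard ?_ (Set.toFinite _)) h2)
  intro j hj
  have hj' := (Finset.mem_filter.1 (Finset.mem_coe.1 hj)).2
  exact meet hj'

/-- the centres are at distance at most `1 - r` of the origin -/
theorem norm_le_of_ball {c : Plane} {r : ℝ} (hr : 0 < r)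
    (h : Metric.closedBall c r ⊆ Metric.closedBall (0 : Plane) 1) : ‖c‖ + r ≤ 1 := by
  by_cases hc : c = 0
  · subst hc
    have h1 : (WithLp.toLp 2 ![r, 0] : Plane) ∈ Metric.closedBall (0 : Plane) r := by
      rw [Metric.mem_closedBall, dist_zero_right]
      have h2 := plane_normsq (WithLp.toLp 2 ![r, 0] : Plane)
      simp only [Matrix.cons_val_zero, Matrix.cons_val_one] at h2
      apply le_of_sq_le_sq _ hr.le
      rw [h2]
      linarith
    have h3 := h h1
    rw [Metric.mem_closedBall, dist_zero_right] at h3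
    have h2 := plane_normsq (WithLp.toLp 2 ![r, 0] : Plane)
    simp only [Matrix.cons_val_zero, Matrix.cons_val_one] at h2
    have h4 := norm_nonneg (WithLp.toLp 2 ![r, 0] : Plane)
    rw [norm_zero]
    nlinarith
  · have hn : 0 < ‖c‖ := norm_pos_iff.2 hc
    have h1 : c + (r / ‖c‖) • c ∈ Metric.closedBall c r := by
      rw [Metric.mem_closedBall, dist_eq_norm, add_sub_cancel_left, norm_smul, Real.norm_eq_abs,
        abs_of_pos (by positivity)]
      field_simp
      exact le_refl _
    have h2 := h h1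
    rw [Metric.mem_closedBall, dist_zero_right] at h2
    have h3 : c + (r / ‖c‖) • c = (1 + r / ‖c‖) • c := by rw [add_smul, one_smul]
    rw [h3, norm_smul, Real.norm_eq_abs, abs_of_pos (by positivity)] at h2
    have h4 : (1 + r / ‖c‖) * ‖c‖ = ‖c‖ + r := by field_simp
    linarith

/-- the projection bound `n r ≤ k` -/
theorem trivial_bound {n k : ℕ} {r : ℝ} (hr : 0 < r) {c : Fin n → Plane}
    (hb : ∀ i, Metric.closedBall (c i) r ⊆ Metric.closedBall 0 1)
    (hl : ∀ l, IsLine l → {i | (Metric.closedBall (c i) r ∩ l).Nonempty}.ncard ≤ k) :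
    n * r ≤ k := by
  have h1 : ∀ t : ℝ, ∑ j, ind r (c j 0 - t) ≤ k := by
    intro t
    have := count hl 0 t
    simpa [pr] using this
  have h2 : ∀ j, 2 * r ≤ ∫ t in (-1 : ℝ)..1, ind r (c j 0 - t) := by
    intro j
    have h3 := norm_le_of_ball hr (hb j)
    have h4 : |c j 0| ≤ ‖c j‖ := by
      have := abs_pr_le (c j) 0
      simpa [pr] using this
    have h5 := abs_le.1 h4
    calc 2 * r = ∫ t in (c j 0 - r)..(c j 0 + r), (1 : ℝ) := by
          rw [intervalIntegral.integral_const, smul_eq_mul]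
          ring
      _ ≤ ∫ t in (c j 0 - r)..(c j 0 + r), ind r (c j 0 - t) := by
          refine intervalIntegral.integral_mono_on (by linarith) (by simp)
            (intervalIntegrable_ind (by fun_prop) _ _ _) fun t ht => ?_
          unfold ind
          rw [if_pos]
          rw [abs_le]
          constructor <;> linarith [ht.1, ht.2]
      _ ≤ _ := by
          refine intervalIntegral.integral_mono_interval (by linarith) (by linarith) (by linarith)
            (Eventually.of_forall fun θ => ind_nonneg _ _)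
            (intervalIntegrable_ind (by fun_prop) _ _ _)
  have h3 : (n : ℝ) * (2 * r) ≤ ∫ t in (-1 : ℝ)..1, ∑ j, ind r (c j 0 - t) := by
    rw [intervalIntegral.integral_finsetSum]
    · calc (n : ℝ) * (2 * r) = ∑ _j : Fin n, 2 * r := by
            rw [Finset.sum_const, nsmul_eq_mul, Finset.card_univ, Fintype.card_fin]
        _ ≤ _ := Finset.sum_le_sum fun j _ => h2 j
    · intro j _
      exact intervalIntegrable_ind (by fun_prop) _ _ _
  have h4 : ∫ t in (-1 : ℝ)..1, ∑ j, ind r (c j 0 - t) ≤ ∫ t in (-1 : ℝ)..1, (k : ℝ) := by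
    refine intervalIntegral.integral_mono_on (by norm_num) ?_ (by simp) fun t _ => h1 t
    have : (fun t : ℝ => ∑ j, ind r (c j 0 - t)) = ∑ j, fun t : ℝ => ind r (c j 0 - t) := by
      ext t
      simp
    rw [this]
    exact IntervalIntegrable.sum _ fun j _ => intervalIntegrable_ind (by fun_prop) _ _ _
  rw [intervalIntegral.integral_const, smul_eq_mul] at h4
  linarith

end Pool.Agent.EDU
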