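import Pool.Agent.EDU.Comb
import Pool.Agent.EDU.Angle

/-!
# The average of the weight over all directions
-/

set_option autoImplicit false

open MeasureTheory Set Filter Topology

namespace Pool.Agent.EDU

/-- positive part of the weight -/
noncomputable def wp (c s : ℝ) : ℝ := if s ≤ 1 then min 2 (2 + 2 * c - 2 * s) else 0

/-- negative part of the weight -/
noncomputable def vn (c s : ℝ) : ℝ := if s ≤ 1 then 0 else max 0 (1 + 2 * c - s)

theorem wt_eq (K s : ℝ) : wt K s = wp (1 / (2 * K + 1)) s - K * vn (1 / (2 * K + 1)) s := by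
  unfold wt wp vn
  have e : 2 * (1 / (2 * K + 1)) = 2 / (2 * K + 1) := by ring
  rw [e]
  split_ifs <;> ring

theorem wp_nonneg {c : ℝ} (hc : 0 ≤ c) (s : ℝ) : 0 ≤ wp c s := by
  unfold wp
  split_ifs with h
  · exact le_min (by norm_num) (by linarith)
  · exact le_refl _

theorem wp_le (c s : ℝ) : wp c s ≤ 2 := by
  unfold wp
  split_ifs with h
  · exact min_le_left _ _
  · norm_num

theorem vn_nonneg (c s : ℝ) : 0 ≤ vn c s := by
  unfold vn
  split_ifs with h
  · exact le_refl _
  · exact le_max_left _ _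

theorem vn_le {c : ℝ} (hc : 0 ≤ c) (s : ℝ) : vn c s ≤ 2 * c := by
  unfold vn
  split_ifs with h
  · positivity
  · exact max_le (by positivity) (by linarith)

theorem wp_anti {c : ℝ} (hc : 0 ≤ c) {s t : ℝ} (h : s ≤ t) : wp c t ≤ wp c s := by
  by_cases ht : t ≤ 1
  · unfold wp
    rw [if_pos ht, if_pos (h.trans ht)]
    exact min_le_min_left _ (by linarith)
  · have : wp c t = 0 := by
      unfold wp
      rw [if_neg ht]
    rw [this]
    exact wp_nonneg hc s

theorem measurable_wp (c : ℝ) : Measurable (wp c) := by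
  unfold wp
  exact Measurable.ite (measurableSet_le (by fun_prop) (by fun_prop)) (by fun_prop)
    measurable_const

theorem measurable_vn (c : ℝ) : Measurable (vn c) := by
  unfold vn
  exact Measurable.ite (measurableSet_le (by fun_prop) (by fun_prop)) measurable_const
    (by fun_prop)

theorem intInt_of_bdd {f : ℝ → ℝ} (hf : Measurable f) {M : ℝ} (h0 : ∀ t, 0 ≤ f t)
    (h1 : ∀ t, f t ≤ M) (A B : ℝ) : IntervalIntegrable f volume A B := by
  rw [intervalIntegrable_iff]
  refine Measure.integrableOn_of_bounded (M := M) (measure_Ioc_lt_top.ne)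
    hf.aestronglyMeasurable ?_
  refine Eventually.of_forall fun t => ?_
  rw [Real.norm_of_nonneg (h0 _)]
  exact h1 _

theorem intInt_wp {c : ℝ} (hc : 0 ≤ c) {g : ℝ → ℝ} (hg : Measurable g) (A B : ℝ) :
    IntervalIntegrable (fun t => wp c (g t)) volume A B :=
  intInt_of_bdd ((measurable_wp c).comp hg) (fun _ => wp_nonneg hc _) (fun _ => wp_le c _) A B

theorem intInt_vn {c : ℝ} (hc : 0 ≤ c) {g : ℝ → ℝ} (hg : Measurable g) (A B : ℝ) :
    IntervalIntegrable (fun t => vn c (g t)) volume A B :=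
  intInt_of_bdd ((measurable_vn c).comp hg) (fun _ => vn_nonneg c _) (fun _ => vn_le hc _) A B

theorem integral_wp {c : ℝ} (hc : 0 ≤ c) (hc1 : c ≤ 1) :
    ∫ s in (0 : ℝ)..1, wp c s = 1 + 2 * c - c ^ 2 := by
  rw [← intervalIntegral.integral_add_adjacent_intervals
    (intInt_of_bdd (measurable_wp c) (wp_nonneg hc) (wp_le c) 0 c)
    (intInt_of_bdd (measurable_wp c) (wp_nonneg hc) (wp_le c) c 1)]
  have h1 : ∫ s in (0 : ℝ)..c, wp c s = ∫ s in (0 : ℝ)..c, (2 : ℝ) := by
    refine intervalIntegral.integral_congr fun s hs => ?_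
    rw [uIcc_of_le hc] at hs
    unfold wp
    rw [if_pos (hs.2.trans hc1), min_eq_left]
    linarith [hs.2]
  have h2 : ∫ s in c..1, wp c s = ∫ s in c..1, (2 + 2 * c - 2 * s) := by
    refine intervalIntegral.integral_congr fun s hs => ?_
    rw [uIcc_of_le hc1] at hs
    unfold wp
    rw [if_pos hs.2, min_eq_right]
    linarith [hs.1]
  rw [h1, h2, intervalIntegral.integral_const, intervalIntegral.integral_sub (by simp)
    (Continuous.intervalIntegrable (by fun_prop) _ _), intervalIntegral.integral_const,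
    intervalIntegral.integral_const_mul, integral_id]
  simp only [smul_eq_mul]
  ring

theorem pos_part {c D : ℝ} (hc : 0 ≤ c) (hc1 : c ≤ 1) (hD : 1 ≤ D) :
    1 / D * (1 + 2 * c - c ^ 2) ≤ ∫ φ in (0 : ℝ)..(Real.pi / 2), wp c (D * Real.sin φ) := by
  have hD0 : 0 < D := by linarith
  have hpi := Real.pi_gt_three
  have h1 : 1 / D ≤ 1 := by
    rw [div_le_one hD0]
    exact hD
  have h0 : 0 ≤ 1 / D := by positivity
  calc 1 / D * (1 + 2 * c - c ^ 2) = ∫ φ in (0 : ℝ)..(1 / D), wp c (D * φ) := by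
        rw [intervalIntegral.integral_comp_mul_left (fun s => wp c s) hD0.ne', mul_zero,
          mul_one_div_cancel hD0.ne', integral_wp hc hc1, smul_eq_mul, one_div]
    _ ≤ ∫ φ in (0 : ℝ)..(1 / D), wp c (D * Real.sin φ) := by
        refine intervalIntegral.integral_mono_on h0 (intInt_wp hc (by fun_prop) _ _)
          (intInt_wp hc (by fun_prop) _ _) fun φ hφ => ?_
        apply wp_anti hc
        exact mul_le_mul_of_nonneg_left (Real.sin_le hφ.1) hD0.le
    _ ≤ _ := by
        refine intervalIntegral.integral_mono_interval (le_refl _) h0 (by linarith)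
          (Eventually.of_forall fun φ => wp_nonneg hc _) (intInt_wp hc (by fun_prop) _ _)

theorem neg_part {c D ℓ : ℝ} {q : ℝ → ℝ} (hc : 0 ≤ c) (hD : 1 ≤ D) (hℓ : 0 ≤ ℓ)
    (hq : Continuous q) (hq0 : ∀ u ∈ Icc (0 : ℝ) ℓ, 0 ≤ q u)
    (hb : ∀ φ, Real.arcsin (1 / D) < φ → φ ≤ Real.pi / 2 →
      vn c (D * Real.sin φ) ≤ if φ - Real.arcsin (1 / D) ≤ ℓ then q (φ - Real.arcsin (1 / D)) else 0) :
    ∫ φ in (0 : ℝ)..(Real.pi / 2), vn c (D * Real.sin φ) ≤ ∫ u in (0 : ℝ)..ℓ, q u := by
  have hD0 : 0 < D := by linarith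
  have hpi := Real.pi_pos
  set a := Real.arcsin (1 / D) with ha
  have h1D : 1 / D ≤ 1 := by
    rw [div_le_one hD0]
    exact hD
  have hsin : Real.sin a = 1 / D :=
    Real.sin_arcsin (by have : 0 ≤ 1 / D := by positivity
                        linarith) h1D
  have ha1 : a ≤ Real.pi / 2 := Real.arcsin_le_pi_div_two _
  have ha0 : 0 ≤ a := Real.arcsin_nonneg.2 (by positivity)
  set F : ℝ → ℝ := (Ioc a (a + ℓ)).indicator (fun x => q (x - a)) with hF
  have hF0 : ∀ x, 0 ≤ F x := by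
    intro x
    rw [hF]
    apply indicator_nonneg
    intro y hy
    exact hq0 _ ⟨by linarith [hy.1], by linarith [hy.2]⟩
  have hcont : Continuous fun x => q (x - a) := hq.comp (by fun_prop)
  have hint : Integrable F := by
    rw [hF, integrable_indicator_iff measurableSet_Ioc]
    exact (hcont.integrableOn_Icc).mono_set Ioc_subset_Icc_self
  have h1 : ∫ φ in (0 : ℝ)..(Real.pi / 2), vn c (D * Real.sin φ) ≤
      ∫ φ in (0 : ℝ)..(Real.pi / 2), F φ := by
    refine intervalIntegral.integral_mono_on (by positivity) (intInt_vn hc (by fun_prop) _ _)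
      (hint.intervalIntegrable) fun φ hφ => ?_
    rcases le_or_gt φ a with h | h
    · have h2 : Real.sin φ ≤ 1 / D := by
        rw [← hsin]
        exact Real.sin_le_sin_of_le_of_le_pi_div_two (by linarith [hφ.1]) ha1 h
      have h3 : D * Real.sin φ ≤ 1 := by
        calc D * Real.sin φ ≤ D * (1 / D) := mul_le_mul_of_nonneg_left h2 hD0.le
          _ = 1 := mul_one_div_cancel hD0.ne'
      have h4 : vn c (D * Real.sin φ) = 0 := by
        unfold vn
        rw [if_pos h3]
      rw [h4]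
      exact hF0 _
    · have h2 := hb φ h hφ.2
      by_cases h3 : φ - a ≤ ℓ
      · rw [if_pos h3] at h2
        have h4 : F φ = q (φ - a) := by
          rw [hF, indicator_of_mem]
          exact ⟨h, by linarith⟩
        rw [h4]
        exact h2
      · rw [if_neg h3] at h2
        exact h2.trans (hF0 _)
  have h2 : ∫ φ in (0 : ℝ)..(Real.pi / 2), F φ ≤ ∫ x, F x := by
    rw [intervalIntegral.integral_of_le (by positivity)]
    exact setIntegral_le_integral hint (Eventually.of_forall hF0)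
  have h3 : ∫ x, F x = ∫ u in (0 : ℝ)..ℓ, q u := by
    rw [hF, integral_indicator measurableSet_Ioc, ← intervalIntegral.integral_of_le (by linarith),
      intervalIntegral.integral_comp_sub_right (fun x => q x) a, sub_self, add_sub_cancel_left]
  linarith

theorem sin_sub_ge {a φ : ℝ} (ha : 0 ≤ a) (h : a ≤ φ) (hφ : φ ≤ Real.pi / 2) :
    2 / Real.pi ^ 2 * (φ - a) ^ 2 ≤ Real.sin φ - Real.sin a := by
  have hpi := Real.pi_pos
  have h1 : Real.sin φ - Real.sin a = 2 * Real.sin ((φ - a) / 2) * Real.cos ((φ + a) / 2) :=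
    Real.sin_sub_sin φ a
  have h2 : 2 / Real.pi * ((φ - a) / 2) ≤ Real.sin ((φ - a) / 2) :=
    Real.mul_le_sin (by linarith) (by linarith)
  have h3 : Real.sin ((φ - a) / 2) ≤ Real.cos ((φ + a) / 2) := by
    rw [← Real.cos_pi_div_two_sub]
    apply Real.cos_le_cos_of_nonneg_of_le_pi
    · linarith
    · linarith
    · linarith
  have h4 : 0 ≤ 2 / Real.pi * ((φ - a) / 2) := by
    have : 0 ≤ (φ - a) / 2 := by linarith
    positivity
  have h5 : 0 ≤ Real.sin ((φ - a) / 2) := h4.trans h2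
  rw [h1]
  calc 2 / Real.pi ^ 2 * (φ - a) ^ 2 = 2 * (2 / Real.pi * ((φ - a) / 2)) *
        (2 / Real.pi * ((φ - a) / 2)) := by field_simp
    _ ≤ 2 * Real.sin ((φ - a) / 2) * Real.cos ((φ + a) / 2) := by
        apply mul_le_mul _ (h2.trans h3) h4 (by positivity)
        linarith

/-- bound of the negative part for `D ≥ 1` -/
theorem neg_one {c D : ℝ} (hc : 0 < c) (hD : 1 ≤ D) :
    ∫ φ in (0 : ℝ)..(Real.pi / 2), vn c (D * Real.sin φ) ≤
      4 * c / 3 * (Real.pi * Real.sqrt (c / D)) := by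
  have hD0 : 0 < D := by linarith
  have hpi := Real.pi_pos
  set E : ℝ := 2 * D / Real.pi ^ 2 with hE
  have hE0 : 0 < E := by positivity
  set ℓ : ℝ := Real.pi * Real.sqrt (c / D) with hℓ
  have hℓ0 : 0 ≤ ℓ := by positivity
  have hℓ2 : E * ℓ ^ 2 = 2 * c := by
    rw [hℓ, mul_pow, Real.sq_sqrt (by positivity), hE]
    field_simp
  have h1D : 1 / D ≤ 1 := by
    rw [div_le_one hD0]
    exact hD
  have hsin : Real.sin (Real.arcsin (1 / D)) = 1 / D :=
    Real.sin_arcsin (by have : 0 ≤ 1 / D := by positivity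
                        linarith) h1D
  have ha0 : 0 ≤ Real.arcsin (1 / D) := Real.arcsin_nonneg.2 (by positivity)
  have h := neg_part (q := fun u => 2 * c - E * u ^ 2) hc.le hD hℓ0 (by fun_prop) ?_ ?_
  · refine h.trans (le_of_eq ?_)
    rw [intervalIntegral.integral_sub (by simp) (Continuous.intervalIntegrable (by fun_prop) _ _),
      intervalIntegral.integral_const, intervalIntegral.integral_const_mul, integral_pow]
    simp only [smul_eq_mul]
    have : E * ((ℓ ^ (2 + 1) - 0 ^ (2 + 1)) / ((2 : ℕ) + 1)) = E * ℓ ^ 2 * ℓ / 3 := by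
      push_cast
      ring
    rw [this, hℓ2]
    ring
  · intro u hu
    have : u ^ 2 ≤ ℓ ^ 2 := pow_le_pow_left₀ hu.1 hu.2 2
    nlinarith
  · intro φ h1 h2
    have h3 := sin_sub_ge ha0 h1.le h2
    rw [hsin] at h3
    have h4 : 1 + 2 * c - D * Real.sin φ ≤ 2 * c - E * (φ - Real.arcsin (1 / D)) ^ 2 := by
      have h5 := mul_le_mul_of_nonneg_left h3 hD0.le
      have h6 : D * (Real.sin φ - 1 / D) = D * Real.sin φ - 1 := by
        field_simp
      rw [h6] at h5
      have h7 : D * (2 / Real.pi ^ 2 * (φ - Real.arcsin (1 / D)) ^ 2) =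
          E * (φ - Real.arcsin (1 / D)) ^ 2 := by
        rw [hE]
        ring
      rw [h7] at h5
      linarith
    split_ifs with h5
    · have h6 : 0 ≤ 2 * c - E * (φ - Real.arcsin (1 / D)) ^ 2 := by
        have h7 : (φ - Real.arcsin (1 / D)) ^ 2 ≤ ℓ ^ 2 := pow_le_pow_left₀ (by linarith) h5 2
        nlinarith
      unfold vn
      split_ifs with h8
      · exact h6
      · exact max_le h6 h4
    · have h6 : 1 + 2 * c - D * Real.sin φ ≤ 0 := by
        have h7 : ℓ ^ 2 ≤ (φ - Real.arcsin (1 / D)) ^ 2 :=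
          pow_le_pow_left₀ hℓ0 (not_le.1 h5).le 2
        nlinarith
      unfold vn
      split_ifs with h8
      · exact le_refl _
      · exact max_le (le_refl _) h6

/-- bound of the negative part for `D` larger than the range -/
theorem neg_two {c D : ℝ} (hc : 0 < c) (hD : 1 ≤ D) (hDT : 1 + 2 * c < D) :
    ∫ φ in (0 : ℝ)..(Real.pi / 2), vn c (D * Real.sin φ) ≤
      2 * c ^ 2 / Real.sqrt (D ^ 2 - (1 + 2 * c) ^ 2) := by
  have hD0 : 0 < D := by linarith
  have hpi := Real.pi_pos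
  set T : ℝ := 1 + 2 * c with hT
  have hT0 : 0 < T := by positivity
  have hDT2 : 0 < D ^ 2 - T ^ 2 := by nlinarith
  set E : ℝ := Real.sqrt (D ^ 2 - T ^ 2) with hE
  have hE0 : 0 < E := Real.sqrt_pos.2 hDT2
  set ℓ : ℝ := 2 * c / E with hℓ
  have hℓ0 : 0 ≤ ℓ := by positivity
  have hEℓ : E * ℓ = 2 * c := by
    rw [hℓ]
    field_simp
  have h1D : 1 / D ≤ 1 := by
    rw [div_le_one hD0]
    exact hD
  have hsin : Real.sin (Real.arcsin (1 / D)) = 1 / D :=
    Real.sin_arcsin (by have : 0 ≤ 1 / D := by positivity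
                        linarith) h1D
  have ha0 : 0 ≤ Real.arcsin (1 / D) := Real.arcsin_nonneg.2 (by positivity)
  have hTD : T / D ≤ 1 := by
    rw [div_le_one hD0]
    exact hDT.le
  have hTD0 : 0 < T / D := by positivity
  have hcosT : D * Real.cos (Real.arcsin (T / D)) = E := by
    rw [Real.cos_arcsin, hE]
    have e : D ^ 2 - T ^ 2 = D ^ 2 * (1 - (T / D) ^ 2) := by field_simp
    rw [e, Real.sqrt_mul (by positivity), Real.sqrt_sq hD0.le]
  have h := neg_part (q := fun u => 2 * c - E * u) hc.le hD hℓ0 (by fun_prop) ?_ ?_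
  · refine h.trans (le_of_eq ?_)
    rw [intervalIntegral.integral_sub (by simp) (Continuous.intervalIntegrable (by fun_prop) _ _),
      intervalIntegral.integral_const, intervalIntegral.integral_const_mul, integral_id]
    simp only [smul_eq_mul]
    rw [hℓ]
    field_simp
    ring
  · intro u hu
    have : E * u ≤ E * ℓ := mul_le_mul_of_nonneg_left hu.2 hE0.le
    linarith
  · intro φ h1 h2
    have hq : φ - Real.arcsin (1 / D) ≤ ℓ → 0 ≤ 2 * c - E * (φ - Real.arcsin (1 / D)) := by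
      intro h3
      have : E * (φ - Real.arcsin (1 / D)) ≤ E * ℓ := mul_le_mul_of_nonneg_left h3 hE0.le
      linarith
    rcases le_or_gt T (D * Real.sin φ) with h3 | h3
    · have h4 : vn c (D * Real.sin φ) = 0 := by
        unfold vn
        split_ifs with h5
        · rfl
        · exact max_eq_left (by linarith)
      rw [h4]
      split_ifs with h5
      · exact hq h5
      · exact le_refl _
    · have h4 : Real.sin φ < T / D := by
        rw [lt_div_iff₀ hD0]
        linarith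
      have h5 : φ < Real.arcsin (T / D) := by
        by_contra hcon
        have h6 := Real.sin_le_sin_of_le_of_le_pi_div_two
          (Real.neg_pi_div_two_le_arcsin (T / D)) h2 (not_lt.1 hcon)
        rw [Real.sin_arcsin (by linarith) hTD] at h6
        linarith
      obtain ⟨ξ, hξ, hξ2⟩ := exists_hasDerivAt_eq_slope Real.sin Real.cos h1
        Real.continuous_sin.continuousOn (fun x _ => Real.hasDerivAt_sin x)
      have h6 : Real.cos (Real.arcsin (T / D)) ≤ Real.cos ξ := by
        apply Real.cos_le_cos_of_nonneg_of_le_pi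
        · linarith [hξ.1]
        · linarith [Real.arcsin_le_pi_div_two (T / D)]
        · linarith [hξ.2]
      have h7 : 0 < φ - Real.arcsin (1 / D) := by linarith
      have h8 : E * (φ - Real.arcsin (1 / D)) ≤ D * Real.sin φ - 1 := by
        rw [eq_div_iff h7.ne', hsin] at hξ2
        calc E * (φ - Real.arcsin (1 / D)) = D * (Real.cos (Real.arcsin (T / D)) *
              (φ - Real.arcsin (1 / D))) := by rw [← hcosT]; ring
          _ ≤ D * (Real.cos ξ * (φ - Real.arcsin (1 / D))) :=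
              mul_le_mul_of_nonneg_left (mul_le_mul_of_nonneg_right h6 h7.le) hD0.le
          _ = D * Real.sin φ - 1 := by
              rw [hξ2]
              field_simp
      split_ifs with h9
      · unfold vn
        split_ifs with h10
        · exact hq h9
        · exact max_le (hq h9) (by linarith)
      · have h10 : 1 + 2 * c - D * Real.sin φ ≤ 0 := by
          have : E * ℓ ≤ E * (φ - Real.arcsin (1 / D)) :=
            mul_le_mul_of_nonneg_left (not_le.1 h9).le hE0.le
          linarith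
        unfold vn
        split_ifs with h11
        · exact le_refl _
        · exact max_le (le_refl _) h10

theorem intInt_wt {K : ℝ} (hK : 0 ≤ K) {g : ℝ → ℝ} (hg : Measurable g) (A B : ℝ) :
    IntervalIntegrable (fun t => wt K (g t)) volume A B := by
  have hc : 0 ≤ 1 / (2 * K + 1) := by positivity
  have e : (fun t => wt K (g t)) =
      fun t => wp (1 / (2 * K + 1)) (g t) - K * vn (1 / (2 * K + 1)) (g t) := by
    ext t
    exact wt_eq K (g t)
  rw [e]
  exact (intInt_wp hc hg A B).sub ((intInt_vn hc hg A B).const_mul K)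

/-- the average of the weight over all directions, as an integral over a quarter turn -/
theorem psi_eq {K D : ℝ} (hK : 0 ≤ K) (hD : 0 ≤ D) :
    ∫ θ in (0 : ℝ)..Real.pi, wt K |D * Real.cos θ| =
      2 * ∫ φ in (0 : ℝ)..(Real.pi / 2), wt K (D * Real.sin φ) := by
  have hpi := Real.pi_pos
  have h1 := integral_half (h := fun x => wt K |x|) D
  rw [h1]
  have hint : ∀ A B, IntervalIntegrable (fun θ => wt K |D * Real.sin θ|) volume A B :=
    fun A B => intInt_wt hK (by fun_prop) A B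
  rw [← intervalIntegral.integral_add_adjacent_intervals (hint (-(Real.pi / 2)) 0)
    (hint 0 (Real.pi / 2))]
  have h2 := intervalIntegral.integral_comp_neg (a := 0) (b := Real.pi / 2)
    (fun θ => wt K |D * Real.sin θ|)
  simp only [Real.sin_neg, mul_neg, abs_neg, neg_zero] at h2
  rw [← h2, ← two_mul]
  congr 1
  refine intervalIntegral.integral_congr fun θ hθ => ?_
  rw [uIcc_of_le (by positivity)] at hθ
  have h3 : 0 ≤ Real.sin θ := Real.sin_nonneg_of_nonneg_of_le_pi hθ.1 (by linarith [hθ.2])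
  have h4 : |D * Real.sin θ| = D * Real.sin θ := abs_of_nonneg (mul_nonneg hD h3)
  simp only [h4]

theorem half_ge {K D : ℝ} (hK : 1 ≤ K) (hD : 1 ≤ D) {N : ℝ}
    (hN : ∫ φ in (0 : ℝ)..(Real.pi / 2), vn (1 / (2 * K + 1)) (D * Real.sin φ) ≤ N) :
    2 * (1 / D * (1 + 2 * (1 / (2 * K + 1)) - (1 / (2 * K + 1)) ^ 2) - K * N) ≤
      ∫ θ in (0 : ℝ)..Real.pi, wt K |D * Real.cos θ| := by
  have hc : 0 ≤ 1 / (2 * K + 1) := by positivity
  have hc1 : 1 / (2 * K + 1) ≤ 1 := by
    rw [div_le_one (by positivity)]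
    linarith
  rw [psi_eq (by linarith) (by linarith)]
  have h1 := pos_part hc hc1 hD
  have h2 : ∫ φ in (0 : ℝ)..(Real.pi / 2), wt K (D * Real.sin φ) =
      (∫ φ in (0 : ℝ)..(Real.pi / 2), wp (1 / (2 * K + 1)) (D * Real.sin φ)) -
      K * ∫ φ in (0 : ℝ)..(Real.pi / 2), vn (1 / (2 * K + 1)) (D * Real.sin φ) := by
    simp_rw [wt_eq]
    rw [intervalIntegral.integral_sub (intInt_wp hc (by fun_prop) _ _)
      ((intInt_vn hc (by fun_prop) _ _).const_mul K), intervalIntegral.integral_const_mul]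
  rw [h2]
  have h3 := mul_le_mul_of_nonneg_left hN (by linarith : (0 : ℝ) ≤ K)
  linarith

theorem psi_small {K D : ℝ} (hK : 1 ≤ K) (hD : 0 ≤ D) (hD1 : D ≤ 1) :
    3 / 2 ≤ ∫ θ in (0 : ℝ)..Real.pi, wt K |D * Real.cos θ| := by
  have hpi := Real.pi_gt_three
  have h1 : ∫ θ in (0 : ℝ)..Real.pi, Real.sin θ ^ 2 ≤
      ∫ θ in (0 : ℝ)..Real.pi, wt K |D * Real.cos θ| := by
    refine intervalIntegral.integral_mono_on (by linarith)
      (Continuous.intervalIntegrable (by fun_prop) _ _) (intInt_wt (by linarith) (by fun_prop) _ _)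
      fun θ _ => ?_
    have h2 : |D * Real.cos θ| ≤ |Real.cos θ| := by
      rw [abs_mul, abs_of_nonneg hD]
      have := abs_nonneg (Real.cos θ)
      nlinarith
    have h3 : |Real.cos θ| ≤ 1 := Real.abs_cos_le_one θ
    have h4 : Real.sin θ ^ 2 = 1 - |Real.cos θ| ^ 2 := by
      rw [sq_abs]
      have := Real.sin_sq_add_cos_sq θ
      linarith
    have hc : 0 ≤ 2 / (2 * K + 1) := by positivity
    unfold wt
    rw [if_pos (h2.trans h3), h4]
    apply le_min
    · nlinarith [sq_nonneg |Real.cos θ|]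
    · nlinarith [sq_nonneg (1 - |Real.cos θ|)]
  have h2 : ∫ θ in (0 : ℝ)..Real.pi, Real.sin θ ^ 2 = Real.pi / 2 := by
    rw [integral_sin_sq]
    simp
  rw [h2] at h1
  linarith

theorem poly_aux {u : ℝ} (h0 : 0 ≤ u) (h1 : u ^ 2 ≤ 1 / 3) :
    2 / 10 ≤ 1 + 2 * u ^ 2 - u ^ 4 - 298 / 100 * (u * (1 - u ^ 2)) := by
  have h2 : u ^ 4 ≤ 1 / 3 * u ^ 2 := by nlinarith [sq_nonneg u]
  have h3 : 0 ≤ (u - 42 / 100) ^ 2 * (u + 84 / 100) := by positivity
  nlinarith [sq_nonneg (u - 42 / 100)]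

theorem psi_mid {K D : ℝ} (hK : 1 ≤ K) (hD : 1 ≤ D) (hD2 : D ≤ 2) :
    2 / 10 ≤ ∫ θ in (0 : ℝ)..Real.pi, wt K |D * Real.cos θ| := by
  have hpi := Real.pi_pos
  have hpi2 := Real.pi_lt_d2
  set c : ℝ := 1 / (2 * K + 1) with hc
  have hc0 : 0 < c := by positivity
  have hc3 : c ≤ 1 / 3 := by
    rw [hc, div_le_div_iff₀ (by positivity) (by norm_num)]
    linarith
  have hKc : K * c = (1 - c) / 2 := by
    rw [hc]
    field_simp
    ring
  have hD0 : 0 < D := by linarith
  have h := half_ge hK hD (neg_one hc0 hD)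
  refine le_trans ?_ h
  set u := Real.sqrt c with hu
  have hu0 : 0 ≤ u := Real.sqrt_nonneg _
  have hu2 : u ^ 2 = c := Real.sq_sqrt hc0.le
  have hp := poly_aux hu0 (by rw [hu2]; exact hc3)
  have h1 : D * Real.sqrt (c / D) ≤ 1415 / 1000 * u := by
    apply le_of_sq_le_sq _ (by positivity)
    rw [mul_pow, Real.sq_sqrt (by positivity), mul_pow, hu2]
    have : D ^ 2 * (c / D) = D * c := by field_simp
    rw [this]
    nlinarith
  have h2 : K * (4 * c / 3 * (Real.pi * Real.sqrt (c / D))) =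
      2 / 3 * (1 - c) * (Real.pi * Real.sqrt (c / D)) := by
    calc K * (4 * c / 3 * (Real.pi * Real.sqrt (c / D))) =
          K * c * (4 / 3 * (Real.pi * Real.sqrt (c / D))) := by ring
      _ = _ := by rw [hKc]; ring
  rw [h2]
  have h3 : 2 / 3 * (1 - c) * (Real.pi * Real.sqrt (c / D)) ≤
      1 / D * (298 / 100 * (u * (1 - u ^ 2))) := by
    have h4 : Real.pi * (D * Real.sqrt (c / D)) ≤ 315 / 100 * (1415 / 1000 * u) := by
      apply mul_le_mul (by linarith) h1 (by positivity) (by norm_num)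
    have h5 : 0 ≤ 1 - c := by linarith
    have h6 : 2 / 3 * (1 - c) * (Real.pi * Real.sqrt (c / D)) =
        1 / D * (2 / 3 * (1 - c) * (Real.pi * (D * Real.sqrt (c / D)))) := by
      field_simp
    rw [h6]
    apply mul_le_mul_of_nonneg_left _ (by positivity)
    rw [hu2]
    have h7 := mul_le_mul_of_nonneg_left h4 (by positivity : 0 ≤ 2 / 3 * (1 - c))
    have h8 : 0 ≤ u * (1 - c) := mul_nonneg hu0 h5
    nlinarith
  have h4 : 1 / D * (2 / 10) ≤ 1 / D * (1 + 2 * c - c ^ 2) - 1 / D * (298 / 100 * (u * (1 - u ^ 2))) := by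
    rw [← mul_sub]
    apply mul_le_mul_of_nonneg_left _ (by positivity)
    have e : u ^ 4 = c ^ 2 := by
      rw [← hu2]
      ring
    rw [hu2, e] at hp
    rw [hu2]
    linarith
  have h5 : (1 : ℝ) / 2 ≤ 1 / D := by
    apply div_le_div_of_nonneg_left (by norm_num) hD0 hD2
  linarith

theorem psi_large {K D : ℝ} (hK : 1 ≤ K) (hD : 2 ≤ D) :
    2 * (1 + 1 / (2 * K + 1)) / Real.sqrt (225 + D ^ 2) ≤
      ∫ θ in (0 : ℝ)..Real.pi, wt K |D * Real.cos θ| := by
  set c : ℝ := 1 / (2 * K + 1) with hc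
  have hc0 : 0 < c := by positivity
  have hc3 : c ≤ 1 / 3 := by
    rw [hc, div_le_div_iff₀ (by positivity) (by norm_num)]
    linarith
  have hKc : K * c = (1 - c) / 2 := by
    rw [hc]
    field_simp
    ring
  have hD0 : 0 < D := by linarith
  have hT : 1 + 2 * c < D := by linarith
  have h := half_ge hK (by linarith) (neg_two hc0 (by linarith) hT)
  refine le_trans ?_ h
  set T : ℝ := 1 + 2 * c with hTdef
  have hT0 : 0 < T := by positivity
  have hT2 : T ^ 2 ≤ 25 / 9 := by nlinarith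
  have hQ2 : 0 < D ^ 2 - T ^ 2 := by nlinarith
  set Q : ℝ := Real.sqrt (D ^ 2 - T ^ 2) with hQ
  have hQ0 : 0 < Q := Real.sqrt_pos.2 hQ2
  have hQs : Q ^ 2 = D ^ 2 - T ^ 2 := Real.sq_sqrt hQ2.le
  -- the bound for `1 / Q`
  set ζ : ℝ := 1 / D ^ 2 with hζ
  have hζ0 : 0 < ζ := by positivity
  have hζ1 : ζ * D ^ 2 = 1 := by
    rw [hζ]
    field_simp
  have hζ4 : ζ ≤ 1 / 4 := by
    rw [hζ, div_le_div_iff₀ (by positivity) (by norm_num)]
    nlinarith
  set z : ℝ := T ^ 2 * ζ with hz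
  have hz0 : 0 < z := by positivity
  have hz1 : z ≤ 25 / 36 := by
    rw [hz]
    nlinarith
  have hQz : Q ^ 2 = D ^ 2 * (1 - z) := by
    rw [hQs, hz]
    have : D ^ 2 * (1 - T ^ 2 * ζ) = D ^ 2 - T ^ 2 * (ζ * D ^ 2) := by ring
    rw [this, hζ1]
    ring
  have hDQ : D ≤ Q * (1 + 6 / 5 * z) := by
    apply le_of_sq_le_sq _ (by positivity)
    rw [mul_pow, hQz]
    have h1 : 1 ≤ (1 - z) * (1 + 6 / 5 * z) ^ 2 := by nlinarith [mul_pos hz0 hz0]
    have h2 := mul_le_mul_of_nonneg_left h1 (by positivity : 0 ≤ D ^ 2)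
    linarith
  have h1Q : 1 / Q ≤ 1 / D * (1 + 6 / 5 * z) := by
    rw [one_div_mul_eq_div, div_le_div_iff₀ hQ0 hD0]
    linarith
  have h2 : K * (2 * c ^ 2 / Q) = c * (1 - c) * (1 / Q) := by
    calc K * (2 * c ^ 2 / Q) = K * c * (2 * c * (1 / Q)) := by ring
      _ = _ := by rw [hKc]; ring
  rw [h2]
  have hcc : c * (1 - c) ≤ 2 / 9 := by nlinarith
  have hcc0 : 0 ≤ c * (1 - c) := mul_nonneg hc0.le (by linarith)
  have h3 : c * (1 - c) * (1 / Q) ≤ 1 / D * (c * (1 - c) + 3 / 4 * ζ) := by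
    have h4 := mul_le_mul_of_nonneg_left h1Q hcc0
    have h5 : c * (1 - c) * (6 / 5 * z) ≤ 3 / 4 * ζ := by
      have h6 : c * (1 - c) * (6 / 5 * z) = 6 / 5 * (c * (1 - c) * T ^ 2) * ζ := by
        rw [hz]
        ring
      rw [h6]
      apply mul_le_mul_of_nonneg_right _ hζ0.le
      nlinarith
    calc c * (1 - c) * (1 / Q) ≤ c * (1 - c) * (1 / D * (1 + 6 / 5 * z)) := h4
      _ = 1 / D * (c * (1 - c) + c * (1 - c) * (6 / 5 * z)) := by ring
      _ ≤ 1 / D * (c * (1 - c) + 3 / 4 * ζ) := by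
          apply mul_le_mul_of_nonneg_left _ (by positivity)
          linarith
  have h4 : 2 * (1 / D * (1 + c - 3 / 4 * ζ)) ≤
      2 * (1 / D * (1 + 2 * c - c ^ 2) - c * (1 - c) * (1 / Q)) := by
    have h5 : 1 / D * (1 + 2 * c - c ^ 2) - 1 / D * (c * (1 - c) + 3 / 4 * ζ) =
        1 / D * (1 + c - 3 / 4 * ζ) := by ring
    linarith
  refine le_trans ?_ h4
  -- comparison with the square root
  set S : ℝ := Real.sqrt (225 + D ^ 2) with hS
  have hS0 : 0 < S := Real.sqrt_pos.2 (by positivity)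
  have hS2 : S ^ 2 = 225 + D ^ 2 := Real.sq_sqrt (by positivity)
  have h5 : D ≤ S * (1 - 3 / 4 * ζ) := by
    apply le_of_sq_le_sq _ (mul_nonneg hS0.le (by linarith))
    rw [mul_pow, hS2]
    have h6 : (1 - 3 / 2 * ζ) ≤ (1 - 3 / 4 * ζ) ^ 2 := by nlinarith [sq_nonneg ζ]
    have h7 := mul_le_mul_of_nonneg_left h6 (by positivity : 0 ≤ 225 + D ^ 2)
    nlinarith
  have h6 : 2 * (1 + c) / S ≤ 2 * (1 / D * ((1 + c) * (1 - 3 / 4 * ζ))) := by
    rw [div_le_iff₀ hS0]
    have h7 : 2 * (1 / D * ((1 + c) * (1 - 3 / 4 * ζ))) * S =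
        2 * (1 + c) * (1 / D * (S * (1 - 3 / 4 * ζ))) := by ring
    rw [h7]
    have h8 : 1 ≤ 1 / D * (S * (1 - 3 / 4 * ζ)) := by
      rw [one_div_mul_eq_div, le_div_iff₀ hD0]
      linarith
    have h9 : 0 ≤ 2 * (1 + c) := by positivity
    nlinarith
  refine h6.trans ?_
  have h7 : (1 + c) * (1 - 3 / 4 * ζ) ≤ 1 + c - 3 / 4 * ζ := by nlinarith
  have h8 := mul_le_mul_of_nonneg_left h7 (by positivity : 0 ≤ 1 / D)
  linarith

/-- the kernel inequality -/
theorem psi_ge {K D : ℝ} (hK : 1 ≤ K) (hD : 0 ≤ D) :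
    2 * (1 + 1 / (2 * K + 1)) / Real.sqrt (225 + D ^ 2) ≤
      ∫ θ in (0 : ℝ)..Real.pi, wt K |D * Real.cos θ| := by
  rcases le_or_gt 2 D with h | h
  · exact psi_large hK h
  have h1 : 2 * (1 + 1 / (2 * K + 1)) / Real.sqrt (225 + D ^ 2) ≤ 2 / 10 := by
    have hc3 : 1 / (2 * K + 1) ≤ 1 / 3 := by
      rw [div_le_div_iff₀ (by positivity) (by norm_num)]
      linarith
    have h2 : (15 : ℝ) ≤ Real.sqrt (225 + D ^ 2) := by
      apply Real.le_sqrt_of_sq_le
      nlinarith [sq_nonneg D]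
    rw [div_le_iff₀ (by linarith)]
    linarith
  refine h1.trans ?_
  rcases le_or_gt D 1 with h2 | h2
  · have := psi_small hK hD h2
    linarith
  · exact psi_mid hK h2.le h.le

end Pool.Agent.EDU
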