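import Pool.Agent.EDU.Cauchy

/-!
# Energy of points of `[-1,1]` for the Cauchy kernel
-/

set_option autoImplicit false

open MeasureTheory Set Filter Topology

namespace Pool.Agent.EDU

theorem mass_ge {a δ x : ℝ} (ha : 0 < a) (hδ : 0 < δ) (hx : |x| ≤ 1) :
    Real.pi - 2 * a / δ ≤ ∫ t in (-1 - δ)..(1 + δ), P a (t - x) := by
  rw [integral_P ha]
  have h1 := abs_le.1 hx
  have h2 : δ / a ≤ (1 + δ - x) / a := by
    apply div_le_div_of_nonneg_right _ ha.le
    linarith
  have h3 : (-1 - δ - x) / a ≤ -(δ / a) := by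
    rw [← neg_div]
    apply div_le_div_of_nonneg_right _ ha.le
    linarith
  have h4 := arctan_ge (div_pos hδ ha)
  have h5 := Real.arctan_mono h2
  have h6 := Real.arctan_mono h3
  rw [Real.arctan_neg] at h6
  have h7 : 1 / (δ / a) = a / δ := by field_simp
  rw [h7] at h4
  have h8 : 2 * a / δ = 2 * (a / δ) := by ring
  rw [h8]
  linarith

theorem lower_line {ι : Type*} [Fintype ι] (x : ι → ℝ) (hx : ∀ i, |x i| ≤ 1) {a δ : ℝ}
    (ha : 0 < a) (hδ : 0 < δ) (had : 2 * a / δ ≤ Real.pi) :
    (Fintype.card ι : ℝ) ^ 2 * (Real.pi - 2 * a / δ) ^ 2 / (2 + 2 * δ) ≤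
      Real.pi * ∑ i, ∑ j, P (2 * a) (x i - x j) := by
  set F : ℝ → ℝ := fun t => ∑ i, P a (t - x i) with hF
  have hFc : Continuous F := by
    refine continuous_finsetSum _ fun i _ => ?_
    exact (continuous_P ha).comp (continuous_id.sub continuous_const)
  have hF2 : ∀ t, F t ^ 2 = ∑ i, ∑ j, P a (t - x i) * P a (t - x j) := by
    intro t
    rw [sq, hF, Finset.sum_mul_sum]
  have hint : Integrable (fun t => F t ^ 2) := by
    simp_rw [hF2]
    exact integrable_finsetSum _ fun i _ => integrable_finsetSum _ fun j _ =>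
      integrable_PP ha (x i) (x j)
  have htot : ∫ t, F t ^ 2 = Real.pi * ∑ i, ∑ j, P (2 * a) (x i - x j) := by
    simp_rw [hF2]
    rw [integral_finsetSum _ fun i _ => integrable_finsetSum _ fun j _ =>
      integrable_PP ha (x i) (x j), Finset.mul_sum]
    refine Finset.sum_congr rfl fun i _ => ?_
    rw [integral_finsetSum _ fun j _ => integrable_PP ha (x i) (x j), Finset.mul_sum]
    exact Finset.sum_congr rfl fun j _ => integral_PP ha (x i) (x j)
  rw [← htot]
  have hle : (-1 - δ : ℝ) ≤ 1 + δ := by linarith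
  set m : ℝ := Real.pi - 2 * a / δ with hm
  have hm0 : 0 ≤ m := sub_nonneg.2 had
  set N : ℝ := (Fintype.card ι : ℝ) with hN
  have hN0 : 0 ≤ N := Nat.cast_nonneg _
  have h1 : N * m ≤ ∫ t in (-1 - δ)..(1 + δ), F t := by
    rw [hF, intervalIntegral.integral_finsetSum]
    · calc N * m = ∑ _i : ι, m := by
            rw [Finset.sum_const, nsmul_eq_mul, Finset.card_univ]
        _ ≤ _ := Finset.sum_le_sum fun i _ => mass_ge ha hδ (hx i)
    · intro i _
      exact ((continuous_P ha).comp (continuous_id.sub continuous_const)).intervalIntegrable _ _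
  set c : ℝ := N * m / (2 + 2 * δ) with hc
  have hc0 : 0 ≤ c := by positivity
  have h2 : ∫ t in (-1 - δ)..(1 + δ), (2 * c * F t - c ^ 2) ≤ ∫ t in (-1 - δ)..(1 + δ), F t ^ 2 := by
    refine intervalIntegral.integral_mono_on hle ?_ ?_ fun t _ => ?_
    · exact ((hFc.const_mul (2 * c)).sub continuous_const).intervalIntegrable _ _
    · exact (hFc.pow 2).intervalIntegrable _ _
    · nlinarith [sq_nonneg (F t - c)]
  have h3 : ∫ t in (-1 - δ)..(1 + δ), F t ^ 2 ≤ ∫ t, F t ^ 2 := by
    rw [intervalIntegral.integral_of_le hle]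
    exact setIntegral_le_integral hint (Eventually.of_forall fun t => sq_nonneg _)
  have h4 : ∫ t in (-1 - δ)..(1 + δ), (2 * c * F t - c ^ 2) =
      2 * c * (∫ t in (-1 - δ)..(1 + δ), F t) - c ^ 2 * (2 + 2 * δ) := by
    rw [intervalIntegral.integral_sub ((hFc.const_mul (2 * c)).intervalIntegrable _ _)
      (continuous_const.intervalIntegrable _ _), intervalIntegral.integral_const_mul,
      intervalIntegral.integral_const]
    rw [smul_eq_mul]
    ring
  have h5 : N ^ 2 * m ^ 2 / (2 + 2 * δ) = 2 * c * (N * m) - c ^ 2 * (2 + 2 * δ) := by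
    rw [hc]
    field_simp
    ring
  rw [h5]
  have h6 : 2 * c * (N * m) ≤ 2 * c * (∫ t in (-1 - δ)..(1 + δ), F t) :=
    mul_le_mul_of_nonneg_left h1 (by positivity)
  linarith

end Pool.Agent.EDU
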