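import Pool.Agent.EDU.Comb
import Pool.Agent.EDU.Angle

/-!
# The one-dimensional inequality for unsorted families
-/

set_option autoImplicit false

open Finset

namespace Pool.Agent.EDU

theorem unsorted {n k : ℕ} (hk : 1 ≤ k) {r : ℝ} (hr : 0 < r) (x : Fin n → ℝ)
    (hc : ∀ t : ℝ, ∑ j, ind r (x j - t) ≤ k) :
    ∑ i, ∑ j, (if i = j then 0 else wt ((k : ℝ) - 1) (|x i - x j| / (2 * r))) ≤
      2 * (((k : ℝ) - 1) * n) := by
  set K : ℝ := (k : ℝ) - 1 with hK
  set σ : Equiv.Perm (Fin n) := Tuple.sort x with hσ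
  have hz : Monotone (x ∘ σ) := Tuple.monotone_sort x
  set z : Fin n → ℝ := x ∘ σ with hzdef
  set y : ℕ → ℝ := fun i => if h : i < n then z ⟨i, h⟩ / (2 * r) else 0 with hy
  have hyv : ∀ i : Fin n, y i = z i / (2 * r) := by
    intro i
    simp only [hy, i.2, dif_pos]
  have h2r : 0 < 2 * r := by positivity
  -- reindex
  have e1 : ∑ i, ∑ j, (if i = j then 0 else wt K (|x i - x j| / (2 * r))) =
      ∑ i, ∑ j, (if i = j then 0 else wt K (|z i - z j| / (2 * r))) := by
    rw [← Equiv.sum_comp σ]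
    refine sum_congr rfl fun i _ => ?_
    rw [← Equiv.sum_comp σ]
    refine sum_congr rfl fun j _ => ?_
    by_cases h : i = j
    · rw [if_pos h, if_pos (by rw [h])]
    · rw [if_neg h, if_neg (fun h' => h (σ.injective h'))]
      rfl
  have e2 : ∀ i j : Fin n, (if i = j then 0 else wt K (|z i - z j| / (2 * r))) =
      (if i < j then wt K (|z i - z j| / (2 * r)) else 0) +
      (if j < i then wt K (|z i - z j| / (2 * r)) else 0) := by
    intro i j
    rcases lt_trichotomy i j with h | h | h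
    · rw [if_neg h.ne, if_pos h, if_neg h.not_gt, add_zero]
    · subst h
      simp
    · rw [if_neg h.ne', if_neg h.not_gt, if_pos h, zero_add]
  have e3 : ∑ i : Fin n, ∑ j : Fin n, (if j < i then wt K (|z i - z j| / (2 * r)) else 0) =
      ∑ i : Fin n, ∑ j : Fin n, (if i < j then wt K (|z i - z j| / (2 * r)) else 0) := by
    rw [sum_comm]
    refine sum_congr rfl fun i _ => sum_congr rfl fun j _ => ?_
    rw [abs_sub_comm]
  have e4 : ∑ i : Fin n, ∑ j : Fin n, (if i < j then wt K (|z i - z j| / (2 * r)) else 0) =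
      ∑ i ∈ range n, ∑ j ∈ range n, (if i < j then wt K (y j - y i) else 0) := by
    rw [sum_range]
    refine sum_congr rfl fun i _ => ?_
    rw [sum_range]
    refine sum_congr rfl fun j _ => ?_
    by_cases h : i < j
    · have h' : (i : ℕ) < j := h
      rw [if_pos h, if_pos h', hyv, hyv, ← sub_div]
      have h3 : z i ≤ z j := hz h.le
      rw [abs_sub_comm, abs_of_nonneg (by linarith)]
    · have h' : ¬ (i : ℕ) < j := h
      rw [if_neg h, if_neg h']
  rw [e1]
  simp_rw [e2]
  simp_rw [sum_add_distrib]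
  rw [e3, e4]
  have hmono : ∀ i j, i ≤ j → j < n → y i ≤ y j := by
    intro i j hij hj
    have hi : i < n := by omega
    have h1 := hyv ⟨i, hi⟩
    have h2 := hyv ⟨j, hj⟩
    simp only at h1 h2
    rw [h1, h2]
    apply div_le_div_of_nonneg_right _ h2r.le
    exact hz (show (⟨i, hi⟩ : Fin n) ≤ ⟨j, hj⟩ from hij)
  have hgap : ∀ i, i + k < n → 1 < y (i + k) - y i := by
    intro i hik
    by_contra hcon
    push Not at hcon
    have hi : i < n := by omega
    have h1 := hyv ⟨i, hi⟩
    have h2 := hyv ⟨i + k, hik⟩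
    simp only at h1 h2
    rw [h1, h2, ← sub_div, div_le_one h2r] at hcon
    set t : ℝ := (z ⟨i + k, hik⟩ + z ⟨i, hi⟩) / 2 with ht
    have h3 := hc t
    have h4 : ∑ j, ind r (x j - t) = ∑ j, ind r (z j - t) := by
      rw [← Equiv.sum_comp σ]
      rfl
    rw [h4] at h3
    have h5 : ∑ j : Fin n, (if i ≤ (j : ℕ) ∧ (j : ℕ) ≤ i + k then (1 : ℝ) else 0) ≤
        ∑ j, ind r (z j - t) := by
      refine sum_le_sum fun j _ => ?_
      split_ifs with h
      · have h6 : z ⟨i, hi⟩ ≤ z j := hz (show (⟨i, hi⟩ : Fin n) ≤ j from h.1)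
        have h7 : z j ≤ z ⟨i + k, hik⟩ := hz (show j ≤ (⟨i + k, hik⟩ : Fin n) from h.2)
        unfold ind
        rw [if_pos]
        rw [abs_le]
        constructor <;> linarith
      · exact ind_nonneg _ _
    have h6 : ∑ j : Fin n, (if i ≤ (j : ℕ) ∧ (j : ℕ) ≤ i + k then (1 : ℝ) else 0) = k + 1 := by
      rw [← sum_range (fun j => if i ≤ j ∧ j ≤ i + k then (1 : ℝ) else 0), ← sum_filter, sum_const,
        nsmul_eq_mul, mul_one]
      have : filter (fun j => i ≤ j ∧ j ≤ i + k) (range n) = Icc i (i + k) := by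
        ext j
        simp only [mem_filter, mem_range, mem_Icc]
        omega
      rw [this, Nat.card_Icc]
      have e : i + k + 1 - i = k + 1 := by omega
      rw [e]
      push_cast
      ring
    rw [h6] at h5
    linarith
  have h := sorted_ineq hk y hmono hgap
  linarith

end Pool.Agent.EDU
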