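import Pool.Agent.EDU.Disk
import Pool.Agent.EDU.Kern
import Pool.Agent.EDU.Sort

/-!
# The upper bound `r_k(n) ≤ (k-1)(2k-1)/(2k n) * (1 + 30 n^(-1/3))`
-/

set_option autoImplicit false

open MeasureTheory Set Filter Topology

namespace Pool.Agent.EDU

open Pool.Agent.EDW (Plane IsLine)

/-- comparison of the Cauchy kernel and the weight after averaging over all directions -/
theorem avg_le2 {K r b : ℝ} (hK : 1 ≤ K) (hr : 0 < r) (hb : 30 * r ≤ b) (p q : ℝ) :
    ∫ θ in (0 : ℝ)..Real.pi, P b (p * Real.cos θ + q * Real.sin θ) ≤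
      Real.pi / (4 * r * (1 + 1 / (2 * K + 1))) *
        ∫ θ in (0 : ℝ)..Real.pi, wt K (|p * Real.cos θ + q * Real.sin θ| / (2 * r)) := by
  have hpi := Real.pi_pos
  have hb0 : 0 < b := by linarith
  rw [integral_rot (P_neg b),
    integral_rot (h := fun x => wt K (|x| / (2 * r))) (fun x => by simp only [abs_neg]),
    integral_P_cos hb0]
  set d := Real.sqrt (p ^ 2 + q ^ 2) with hd
  have hd0 : 0 ≤ d := Real.sqrt_nonneg _
  have e1 : ∫ θ in (0 : ℝ)..Real.pi, wt K (|d * Real.cos θ| / (2 * r)) =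
      ∫ θ in (0 : ℝ)..Real.pi, wt K |d / (2 * r) * Real.cos θ| := by
    congr 1
    ext θ
    congr 1
    have e : d / (2 * r) * Real.cos θ = d * Real.cos θ / (2 * r) := by ring
    rw [e, abs_div, abs_of_pos (by positivity : 0 < 2 * r)]
  rw [e1]
  have h1 := psi_ge (K := K) (D := d / (2 * r)) hK (by positivity)
  set c : ℝ := 1 / (2 * K + 1) with hc
  have hc0 : 0 < c := by positivity
  have h2 : Real.sqrt (225 + (d / (2 * r)) ^ 2) * (2 * r) ≤ Real.sqrt (b ^ 2 + d ^ 2) := by
    apply Real.le_sqrt_of_sq_le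
    rw [mul_pow, Real.sq_sqrt (by positivity)]
    have e : (225 + (d / (2 * r)) ^ 2) * (2 * r) ^ 2 = (30 * r) ^ 2 + d ^ 2 := by
      field_simp
      ring
    rw [e]
    have : (30 * r) ^ 2 ≤ b ^ 2 := pow_le_pow_left₀ (by positivity) hb 2
    linarith
  have hs0 : 0 < Real.sqrt (225 + (d / (2 * r)) ^ 2) := Real.sqrt_pos.2 (by positivity)
  calc Real.pi / Real.sqrt (b ^ 2 + d ^ 2) ≤
        Real.pi / (Real.sqrt (225 + (d / (2 * r)) ^ 2) * (2 * r)) :=
        div_le_div_of_nonneg_left hpi.le (by positivity) h2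
    _ = Real.pi / (4 * r * (1 + c)) * (2 * (1 + c) / Real.sqrt (225 + (d / (2 * r)) ^ 2)) := by
        field_simp
        ring
    _ ≤ _ := mul_le_mul_of_nonneg_left h1 (by positivity)

/-- the main inequality -/
theorem main_ineq {n k : ℕ} {r a δ : ℝ} (hr : 0 < r) {c : Fin n → Plane}
    (hb : ∀ i, Metric.closedBall (c i) r ⊆ Metric.closedBall 0 1)
    (hl : ∀ l, IsLine l → {i | (Metric.closedBall (c i) r ∩ l).Nonempty}.ncard ≤ k)
    (hn : 1 ≤ n) (hk : 2 ≤ k)
    (ha : 15 * r ≤ a) (hδ : 0 < δ) (had : 2 * a / δ ≤ Real.pi) :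
    n * (Real.pi - 2 * a / δ) ^ 2 / (2 + 2 * δ) ≤
      Real.pi ^ 2 / (2 * r) * (((k : ℝ) - 1) * (2 * k - 1) / (2 * k)) + Real.pi / (2 * a) := by
  have ha0 : 0 < a := by linarith
  have hpi := Real.pi_pos
  have hn0 : (0 : ℝ) < n := by exact_mod_cast hn
  have hk0 : (2 : ℝ) ≤ k := by exact_mod_cast hk
  set K : ℝ := (k : ℝ) - 1 with hK
  have hK1 : 1 ≤ K := by linarith
  have hcont : ∀ i j, Continuous fun θ => P (2 * a) (pr (c i) θ - pr (c j) θ) := by
    intro i j
    refine (continuous_P (by positivity)).comp ?_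
    unfold pr
    fun_prop
  have hmeas : ∀ i j, Measurable fun θ => |pr (c i) θ - pr (c j) θ| / (2 * r) := by
    intro i j
    unfold pr
    fun_prop
  -- lower bound
  have hx : ∀ θ i, |pr (c i) θ| ≤ 1 := by
    intro θ i
    have h1 := norm_le_of_ball hr (hb i)
    exact (abs_pr_le _ _).trans (by linarith)
  have hlow : ∀ θ, (n : ℝ) ^ 2 * (Real.pi - 2 * a / δ) ^ 2 / (2 + 2 * δ) ≤
      Real.pi * ∑ i, ∑ j, P (2 * a) (pr (c i) θ - pr (c j) θ) := by
    intro θ
    have h1 := lower_line (fun i => pr (c i) θ) (hx θ) ha0 hδ had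
    rwa [Fintype.card_fin] at h1
  have hI1 : Real.pi * ((n : ℝ) ^ 2 * (Real.pi - 2 * a / δ) ^ 2 / (2 + 2 * δ)) ≤
      Real.pi * ∑ i, ∑ j, ∫ θ in (0 : ℝ)..Real.pi, P (2 * a) (pr (c i) θ - pr (c j) θ) := by
    have h1 : ∫ θ in (0 : ℝ)..Real.pi, (n : ℝ) ^ 2 * (Real.pi - 2 * a / δ) ^ 2 / (2 + 2 * δ) ≤
        ∫ θ in (0 : ℝ)..Real.pi, Real.pi * ∑ i, ∑ j, P (2 * a) (pr (c i) θ - pr (c j) θ) := by
      refine intervalIntegral.integral_mono_on hpi.le (by simp) ?_ fun θ _ => hlow θ
      refine Continuous.intervalIntegrable ?_ _ _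
      exact continuous_const.mul (continuous_finsetSum _ fun i _ =>
        continuous_finsetSum _ fun j _ => hcont i j)
    rw [intervalIntegral.integral_const, smul_eq_mul, sub_zero,
      intervalIntegral.integral_const_mul, intervalIntegral.integral_finsetSum
        (fun i _ => (continuous_finsetSum _ fun j _ => hcont i j).intervalIntegrable _ _)] at h1
    refine h1.trans (le_of_eq ?_)
    congr 1
    refine Finset.sum_congr rfl fun i _ => ?_
    exact intervalIntegral.integral_finsetSum fun j _ => (hcont i j).intervalIntegrable _ _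
  -- upper bound
  have hpair : ∀ i j, ∫ θ in (0 : ℝ)..Real.pi, P (2 * a) (pr (c i) θ - pr (c j) θ) ≤
      Real.pi / (4 * r * (1 + 1 / (2 * K + 1))) *
        ∫ θ in (0 : ℝ)..Real.pi, wt K (|pr (c i) θ - pr (c j) θ| / (2 * r)) := by
    intro i j
    simp_rw [pr_sub]
    exact avg_le2 hK1 hr (by linarith) _ _
  have hdiagP : ∀ i, ∫ θ in (0 : ℝ)..Real.pi, P (2 * a) (pr (c i) θ - pr (c i) θ) =
      Real.pi / (2 * a) := by
    intro i
    simp_rw [sub_self]
    rw [intervalIntegral.integral_const, smul_eq_mul]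
    unfold P
    field_simp
    ring
  have hW : ∑ i, ∑ j, (if i = j then 0 else
      ∫ θ in (0 : ℝ)..Real.pi, wt K (|pr (c i) θ - pr (c j) θ| / (2 * r))) ≤
      Real.pi * (2 * (K * n)) := by
    have hint : ∀ i j, IntervalIntegrable
        (fun θ => if i = j then 0 else wt K (|pr (c i) θ - pr (c j) θ| / (2 * r)))
        volume 0 Real.pi := by
      intro i j
      by_cases hij : i = j
      · simp only [hij, if_true]
        exact (continuous_const).intervalIntegrable _ _
      · simp only [hij, if_false]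
        exact intInt_wt (by linarith) (hmeas i j) _ _
    have hint2 : ∀ i, IntervalIntegrable
        (fun θ => ∑ j, if i = j then 0 else wt K (|pr (c i) θ - pr (c j) θ| / (2 * r)))
        volume 0 Real.pi := by
      intro i
      have : (fun θ => ∑ j, if i = j then 0 else wt K (|pr (c i) θ - pr (c j) θ| / (2 * r))) =
          ∑ j, fun θ => if i = j then 0 else wt K (|pr (c i) θ - pr (c j) θ| / (2 * r)) := by
        ext θ
        simp
      rw [this]
      exact IntervalIntegrable.sum _ fun j _ => hint i j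
    have h1 : ∫ θ in (0 : ℝ)..Real.pi, ∑ i, ∑ j,
        (if i = j then 0 else wt K (|pr (c i) θ - pr (c j) θ| / (2 * r))) ≤
        ∫ θ in (0 : ℝ)..Real.pi, 2 * (K * n) := by
      refine intervalIntegral.integral_mono_on hpi.le ?_ (by simp) fun θ _ =>
        unsorted (by omega) hr (fun i => pr (c i) θ) (fun t => count hl θ t)
      have : (fun θ => ∑ i, ∑ j, if i = j then 0 else
          wt K (|pr (c i) θ - pr (c j) θ| / (2 * r))) =
          ∑ i, fun θ => ∑ j, if i = j then 0 else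
            wt K (|pr (c i) θ - pr (c j) θ| / (2 * r)) := by
        ext θ
        simp
      rw [this]
      exact IntervalIntegrable.sum _ fun i _ => hint2 i
    rw [intervalIntegral.integral_const, smul_eq_mul, sub_zero,
      intervalIntegral.integral_finsetSum (fun i _ => hint2 i)] at h1
    refine le_trans (le_of_eq ?_) h1
    refine Finset.sum_congr rfl fun i _ => ?_
    rw [intervalIntegral.integral_finsetSum (fun j _ => hint i j)]
    refine Finset.sum_congr rfl fun j _ => ?_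
    by_cases hij : i = j
    · simp only [hij, if_true]
      simp
    · simp only [hij, if_false]
  have hI2 : ∑ i, ∑ j, ∫ θ in (0 : ℝ)..Real.pi, P (2 * a) (pr (c i) θ - pr (c j) θ) ≤
      n * (Real.pi / (2 * a)) +
        Real.pi / (4 * r * (1 + 1 / (2 * K + 1))) * (Real.pi * (2 * (K * n))) := by
    have h1 : ∀ i j, ∫ θ in (0 : ℝ)..Real.pi, P (2 * a) (pr (c i) θ - pr (c j) θ) ≤
        (if i = j then Real.pi / (2 * a) else 0) +
        Real.pi / (4 * r * (1 + 1 / (2 * K + 1))) * (if i = j then 0 else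
          ∫ θ in (0 : ℝ)..Real.pi, wt K (|pr (c i) θ - pr (c j) θ| / (2 * r))) := by
      intro i j
      by_cases hij : i = j
      · rw [if_pos hij, if_pos hij, hij, hdiagP]
        linarith
      · rw [if_neg hij, if_neg hij, zero_add]
        exact hpair i j
    have h2 := Finset.sum_le_sum fun i (_ : i ∈ Finset.univ) =>
      Finset.sum_le_sum fun j (_ : j ∈ Finset.univ) => h1 i j
    refine h2.trans ?_
    simp_rw [Finset.sum_add_distrib, ← Finset.mul_sum]
    have h3 : ∑ i : Fin n, ∑ j : Fin n, (if i = j then Real.pi / (2 * a) else 0) =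
        n * (Real.pi / (2 * a)) := by
      simp
    rw [h3]
    have h4 := mul_le_mul_of_nonneg_left hW
      (by positivity : 0 ≤ Real.pi / (4 * r * (1 + 1 / (2 * K + 1))))
    linarith
  have h1 := le_of_mul_le_mul_left hI1 hpi
  have h2 := h1.trans hI2
  have e1 : (n : ℝ) ^ 2 * (Real.pi - 2 * a / δ) ^ 2 / (2 + 2 * δ) =
      n * (n * (Real.pi - 2 * a / δ) ^ 2 / (2 + 2 * δ)) := by ring
  have e2 : (n : ℝ) * (Real.pi / (2 * a)) +
        Real.pi / (4 * r * (1 + 1 / (2 * K + 1))) * (Real.pi * (2 * (K * n))) =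
      n * (Real.pi ^ 2 / (2 * r) * (K * (2 * k - 1) / (2 * k)) + Real.pi / (2 * a)) := by
    have hk1 : (k : ℝ) = K + 1 := by rw [hK]; ring
    rw [hk1]
    field_simp
    ring
  rw [e1, e2] at h2
  exact le_of_mul_le_mul_left h2 hn0

theorem upper {n k : ℕ} (hn : 1 ≤ n) (hk : 2 ≤ k) {r : ℝ} (hr : 0 < r) {c : Fin n → Plane}
    (hb : ∀ i, Metric.closedBall (c i) r ⊆ Metric.closedBall 0 1)
    (hl : ∀ l, IsLine l → {i | (Metric.closedBall (c i) r ∩ l).Nonempty}.ncard ≤ k) :
    n * r ≤ ((k : ℝ) - 1) * (2 * k - 1) / (2 * k) * (1 + 30 * (n : ℝ) ^ (-(1 / 3) : ℝ)) := by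
  have hn0 : (0 : ℝ) < n := by exact_mod_cast hn
  have hk0 : (2 : ℝ) ≤ k := by exact_mod_cast hk
  have hkp : (0 : ℝ) < k := by linarith
  have htriv := trivial_bound hr hb hl
  set y : ℝ := (n : ℝ) ^ (-(1 / 3) : ℝ) with hy
  have hy0 : 0 < y := Real.rpow_pos_of_pos hn0 _
  have hy3 : (n : ℝ) * y ^ 3 = 1 := by
    rw [hy, ← Real.rpow_natCast, ← Real.rpow_mul hn0.le]
    have e : (-(1 / 3) : ℝ) * ((3 : ℕ) : ℝ) = -1 := by norm_num
    rw [e, Real.rpow_neg_one]
    exact mul_inv_cancel₀ hn0.ne'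
  set C : ℝ := ((k : ℝ) - 1) * (2 * k - 1) / (2 * k) with hC
  have hC0 : 0 < C := by
    rw [hC]
    have : 0 < (k : ℝ) - 1 := by linarith
    have : 0 < 2 * (k : ℝ) - 1 := by linarith
    positivity
  have hCk : 3 / 8 * k ≤ C := by
    rw [hC, le_div_iff₀ (by positivity)]
    nlinarith
  rcases le_or_gt (1 / 18) y with h8 | h8
  · -- `y` is large
    have h1 : C * (5 / 3) ≤ C * (30 * y) := mul_le_mul_of_nonneg_left (by linarith) hC0.le
    linarith
  rcases le_or_gt 1 (k * y) with h1 | h1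
  · have h2 : (k : ℝ) ≤ C + 3 / 2 := by
      have : (k : ℝ) - 3 / 2 ≤ C := by
        rw [hC, le_div_iff₀ (by positivity)]
        nlinarith
      linarith
    have h3 : 3 / 8 ≤ C * y := by
      have := mul_le_mul_of_nonneg_right hCk hy0.le
      linarith
    linarith
  -- the main case
  have hpi := Real.pi_gt_three
  have hra : 15 * r ≤ 15 * y ^ 2 := by
    have h2 : (n : ℝ) * r ≤ n * y ^ 2 := by
      have h3 : (n : ℝ) * y ^ 2 * y = 1 := by
        rw [← hy3]
        ring
      have h5 : (n : ℝ) * r * y ≤ n * y ^ 2 * y := by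
        rw [h3]
        have := mul_le_mul_of_nonneg_right htriv hy0.le
        linarith
      exact le_of_mul_le_mul_right h5 hy0
    have := le_of_mul_le_mul_left h2 hn0
    linarith
  have hδ : (0 : ℝ) < 9 / 2 * y := by positivity
  have e1 : 2 * (15 * y ^ 2) / (9 / 2 * y) = 20 / 3 * y := by
    field_simp
    ring
  have h2 := main_ineq (δ := 9 / 2 * y) hr hb hl hn hk hra hδ (by rw [e1]; linarith)
  rw [e1, ← hC] at h2
  set X : ℝ := n * r with hX
  have hX0 : 0 < X := by positivity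
  have hpi0 := Real.pi_pos
  have h3 : X * (Real.pi - 20 / 3 * y) ^ 2 ≤
      (1 + 9 / 2 * y) * (Real.pi ^ 2 * C + Real.pi * (X * y) / 15) := by
    have h4 := mul_le_mul_of_nonneg_right h2 (by positivity : 0 ≤ r * (2 + 2 * (9 / 2 * y)))
    have e2 : n * (Real.pi - 20 / 3 * y) ^ 2 / (2 + 2 * (9 / 2 * y)) *
        (r * (2 + 2 * (9 / 2 * y))) = X * (Real.pi - 20 / 3 * y) ^ 2 := by
      rw [hX]
      field_simp
    have e3 : (Real.pi ^ 2 / (2 * r) * C + Real.pi / (2 * (15 * y ^ 2))) *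
        (r * (2 + 2 * (9 / 2 * y))) =
        (1 + 9 / 2 * y) * (Real.pi ^ 2 * C + Real.pi * (r / y ^ 2) / 15) := by
      field_simp
    rw [e2, e3] at h4
    have e4 : r / y ^ 2 = X * y := by
      rw [hX, div_eq_iff (by positivity)]
      calc r = r * (n * y ^ 3) := by rw [hy3, mul_one]
        _ = n * r * y * y ^ 2 := by ring
    rw [e4] at h4
    exact h4
  have h5 : X * (1 - 40 / 9 * y) ≤ (1 + 9 / 2 * y) * (C + X * y / 45) := by
    have h6 : Real.pi ^ 2 * (1 - 40 / 9 * y) ≤ (Real.pi - 20 / 3 * y) ^ 2 := by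
      nlinarith [mul_pos hpi0 hy0, sq_nonneg y]
    have h7 : Real.pi * (X * y) / 15 ≤ Real.pi ^ 2 * (X * y / 45) := by
      have : 0 < Real.pi * (X * y) := by positivity
      nlinarith
    have h8 : Real.pi ^ 2 * (X * (1 - 40 / 9 * y)) ≤
        Real.pi ^ 2 * ((1 + 9 / 2 * y) * (C + X * y / 45)) := by
      calc Real.pi ^ 2 * (X * (1 - 40 / 9 * y)) = X * (Real.pi ^ 2 * (1 - 40 / 9 * y)) := by ring
        _ ≤ X * (Real.pi - 20 / 3 * y) ^ 2 := mul_le_mul_of_nonneg_left h6 hX0.le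
        _ ≤ _ := h3
        _ ≤ (1 + 9 / 2 * y) * (Real.pi ^ 2 * C + Real.pi ^ 2 * (X * y / 45)) := by
            apply mul_le_mul_of_nonneg_left _ (by positivity)
            linarith
        _ = _ := by ring
    exact le_of_mul_le_mul_left h8 (by positivity)
  have h6 : X * (1 - 9 * y) ≤ C := by
    have h7 : X * (1 - 9 * y) * (1 + 9 / 2 * y) ≤ C * (1 + 9 / 2 * y) := by
      have h8 : X * (1 - 9 * y) * (1 + 9 / 2 * y) ≤
          X * (1 - 40 / 9 * y) - (1 + 9 / 2 * y) * (X * y / 45) := by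
        have h9 : (1 - 9 * y) * (1 + 9 / 2 * y) ≤
            (1 - 40 / 9 * y) - (1 + 9 / 2 * y) * (y / 45) := by
          nlinarith [sq_nonneg y]
        have h10 := mul_le_mul_of_nonneg_left h9 hX0.le
        linarith
      linarith
    exact le_of_mul_le_mul_right h7 (by positivity)
  have h7 : X * 1 ≤ X * ((1 - 9 * y) * (1 + 30 * y)) := by
    apply mul_le_mul_of_nonneg_left _ hX0.le
    nlinarith
  have h8' := mul_le_mul_of_nonneg_right h6 (by positivity : (0 : ℝ) ≤ 1 + 30 * y)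
  linarith

end Pool.Agent.EDU
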